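import Pool.Agent.H64.BD.Stp

/-!
# BODY of degree `n`: the induction

`v_succ`: (V) in degree `n` gives (V) in degree `n + 1`, if `n ≥ 1`. `v_all`.
-/

set_option autoImplicit false
set_option linter.unusedSectionVars false

namespace Pool.BD64

open Finset Real Matrix
open Pool.Agent.H49.Ent Pool.Agent.H32.Dense Pool.STK Pool.KS6 Pool.SLO Pool.RC21
open Pool.FAD Pool.CLO
open Pool.QC (mat xx QD inc Absb)

variable {c k n : ℕ}

/-- The scalar version. -/
noncomputable def shs (al : ℕ) (x : ℝ) (e : Fin (n + 2) → ℝ) (s : Fin (n + 1)) : ℝ :=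
  ∑ s' : Fin (n + 2), ((Nat.choose s' s : ℕ) : ℝ) * (al : ℝ) ^ (s : ℕ) *
    x ^ ((s' : ℕ) - (s : ℕ)) * e s' - (al : ℝ) ^ (n + 1) * e s.castSucc

theorem mulVec_shf (M : Matrix (Fin c) (Fin c) ℝ) (al : ℕ) (x : ℝ) (E : Fin (n + 2) → Fin c → ℝ)
    (s : Fin (n + 1)) (b : Fin c) :
    (M *ᵥ shf al x E s) b = shs al x (fun s' => (M *ᵥ E s') b) s := by
  unfold shs shf Matrix.mulVec dotProduct
  simp only [mul_sub, Finset.sum_sub_distrib, Finset.mul_sum]
  congr 1
  · rw [Finset.sum_comm]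
    refine Finset.sum_congr rfl fun s' _ => Finset.sum_congr rfl fun i _ => by ring
  · refine Finset.sum_congr rfl fun i _ => by ring

theorem dfc_shf {α : Type} (bs : α → Fin (n + 2) → Fin c → ℝ) (al : ℕ) (x : ℝ) (X : ℕ) (v : ℤ)
    (a a' : Fin 2 → α) (s : Fin (n + 1)) :
    dfc (fun l => shf al x (bs l) s) X v a a' =
      shf al x (fun s' => dfc (fun l => bs l s') X v a a') s := by
  funext i
  unfold dfc inc
  simp only [Pi.sub_apply, Pi.smul_apply, smul_eq_mul]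
  unfold shf
  have e : ∀ β₁ β₂ β₃ β₄ : Fin (n + 2) → ℝ, ∀ w : ℝ,
      (∑ s' : Fin (n + 2), ((Nat.choose s' s : ℕ) : ℝ) * (al : ℝ) ^ (s : ℕ) *
        x ^ ((s' : ℕ) - (s : ℕ)) * β₁ s' - (al : ℝ) ^ (n + 1) * β₁ s.castSucc -
      (∑ s' : Fin (n + 2), ((Nat.choose s' s : ℕ) : ℝ) * (al : ℝ) ^ (s : ℕ) *
        x ^ ((s' : ℕ) - (s : ℕ)) * β₂ s' - (al : ℝ) ^ (n + 1) * β₂ s.castSucc)) -
      w * (∑ s' : Fin (n + 2), ((Nat.choose s' s : ℕ) : ℝ) * (al : ℝ) ^ (s : ℕ) *
        x ^ ((s' : ℕ) - (s : ℕ)) * β₃ s' - (al : ℝ) ^ (n + 1) * β₃ s.castSucc -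
      (∑ s' : Fin (n + 2), ((Nat.choose s' s : ℕ) : ℝ) * (al : ℝ) ^ (s : ℕ) *
        x ^ ((s' : ℕ) - (s : ℕ)) * β₄ s' - (al : ℝ) ^ (n + 1) * β₄ s.castSucc)) =
      ∑ s' : Fin (n + 2), ((Nat.choose s' s : ℕ) : ℝ) * (al : ℝ) ^ (s : ℕ) *
        x ^ ((s' : ℕ) - (s : ℕ)) * (β₁ s' - β₂ s' - w * (β₃ s' - β₄ s')) -
      (al : ℝ) ^ (n + 1) * (β₁ s.castSucc - β₂ s.castSucc -
        w * (β₃ s.castSucc - β₄ s.castSucc)) := by
    intro β₁ β₂ β₃ β₄ w
    have e1 : ∑ s' : Fin (n + 2), ((Nat.choose s' s : ℕ) : ℝ) * (al : ℝ) ^ (s : ℕ) *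
        x ^ ((s' : ℕ) - (s : ℕ)) * (β₁ s' - β₂ s' - w * (β₃ s' - β₄ s')) =
        ∑ s' : Fin (n + 2), ((Nat.choose s' s : ℕ) : ℝ) * (al : ℝ) ^ (s : ℕ) *
          x ^ ((s' : ℕ) - (s : ℕ)) * β₁ s' -
        ∑ s' : Fin (n + 2), ((Nat.choose s' s : ℕ) : ℝ) * (al : ℝ) ^ (s : ℕ) *
          x ^ ((s' : ℕ) - (s : ℕ)) * β₂ s' -
        w * (∑ s' : Fin (n + 2), ((Nat.choose s' s : ℕ) : ℝ) * (al : ℝ) ^ (s : ℕ) *
          x ^ ((s' : ℕ) - (s : ℕ)) * β₃ s' -
        ∑ s' : Fin (n + 2), ((Nat.choose s' s : ℕ) : ℝ) * (al : ℝ) ^ (s : ℕ) *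
          x ^ ((s' : ℕ) - (s : ℕ)) * β₄ s') := by
      rw [← Finset.sum_sub_distrib, ← Finset.sum_sub_distrib, Finset.mul_sum,
        ← Finset.sum_sub_distrib]
      exact Finset.sum_congr rfl fun s' _ => by ring
    rw [e1]
    ring
  exact e _ _ _ _ _

/-- The constant of the recursion. -/
noncomputable def Kd (n : ℕ) : ℝ := 1 + (n + 2) * (2 ^ (n + 1) * 2 ^ (n + 1) * 4 ^ (n + 1))

theorem Kd_one (n : ℕ) : 1 ≤ Kd n := by
  unfold Kd
  have : (0 : ℝ) ≤ (n + 2) * (2 ^ (n + 1) * 2 ^ (n + 1) * 4 ^ (n + 1)) := by positivity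
  linarith

/-- The top coefficient. -/
theorem shs_top (x : ℝ) (e : Fin (n + 2) → ℝ) :
    shs 1 x e (Fin.last n) = (n + 1) * x * e (Fin.last (n + 1)) := by
  unfold shs
  rw [Fin.sum_univ_castSucc]
  have e1 : ∑ s' : Fin (n + 1), ((Nat.choose s'.castSucc (Fin.last n) : ℕ) : ℝ) *
      ((1 : ℕ) : ℝ) ^ ((Fin.last n : Fin (n + 1)) : ℕ) *
      x ^ (((s'.castSucc : Fin (n + 2)) : ℕ) - ((Fin.last n : Fin (n + 1)) : ℕ)) *
      e s'.castSucc = e (Fin.last n).castSucc := by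
    rw [Finset.sum_eq_single (Fin.last n)]
    · simp
    · intro s' _ h
      have h1 : (s' : ℕ) < n := by
        have h2 := s'.2
        have h3 : (s' : ℕ) ≠ n := fun h4 => h (Fin.ext h4)
        omega
      have h2 : Nat.choose (s'.castSucc : Fin (n + 2)) (Fin.last n : Fin (n + 1)) = 0 := by
        rw [Fin.val_castSucc, Fin.val_last]
        exact Nat.choose_eq_zero_of_lt h1
      rw [h2]
      simp
    · intro h
      exact absurd (Finset.mem_univ _) h
  rw [e1]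
  have e2 : Nat.choose ((Fin.last (n + 1) : Fin (n + 2)) : ℕ) ((Fin.last n : Fin (n + 1)) : ℕ) =
      n + 1 := by
    rw [Fin.val_last, Fin.val_last]
    exact Nat.choose_succ_self_right n
  rw [e2]
  have e3 : ((Fin.last (n + 1) : Fin (n + 2)) : ℕ) - ((Fin.last n : Fin (n + 1)) : ℕ) = 1 := by
    rw [Fin.val_last, Fin.val_last]
    omega
  rw [e3]
  push_cast
  ring

/-- The recursion for the lower coefficients. -/
theorem shs_low {x : ℝ} (hx : |x| ≤ 4) (e : Fin (n + 2) → ℝ) (s : Fin (n + 1)) {N : ℝ}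
    (hN : 1 ≤ N) (h : |shs 2 x e s| ≤ 1) (hs' : ∀ s' : Fin (n + 2), (s : ℕ) < s' → |e s'| ≤ N) :
    |e s.castSucc| ≤ Kd n * N := by
  obtain ⟨S, hS⟩ : ∃ S : ℝ, S = ∑ s' : Fin (n + 2), if (s : ℕ) < s' then
      ((Nat.choose s' s : ℕ) : ℝ) * ((2 : ℕ) : ℝ) ^ (s : ℕ) * x ^ ((s' : ℕ) - (s : ℕ)) * e s'
      else 0 := ⟨_, rfl⟩
  have e1 : ∑ s' : Fin (n + 2), ((Nat.choose s' s : ℕ) : ℝ) * ((2 : ℕ) : ℝ) ^ (s : ℕ) *
      x ^ ((s' : ℕ) - (s : ℕ)) * e s' = S + 2 ^ (s : ℕ) * e s.castSucc := by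
    have e2 : ∀ s' : Fin (n + 2), ((Nat.choose s' s : ℕ) : ℝ) * ((2 : ℕ) : ℝ) ^ (s : ℕ) *
        x ^ ((s' : ℕ) - (s : ℕ)) * e s' = (if (s : ℕ) < s' then
          ((Nat.choose s' s : ℕ) : ℝ) * ((2 : ℕ) : ℝ) ^ (s : ℕ) * x ^ ((s' : ℕ) - (s : ℕ)) * e s'
          else 0) + if s' = s.castSucc then 2 ^ (s : ℕ) * e s' else 0 := by
      intro s'
      rcases lt_trichotomy (s : ℕ) (s' : ℕ) with h1 | h1 | h1
      · have h2 : s' ≠ s.castSucc := by
          intro h3
          rw [h3, Fin.val_castSucc] at h1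
          exact lt_irrefl _ h1
        rw [if_pos h1, if_neg h2, add_zero]
      · have h2 : s' = s.castSucc := Fin.ext (by rw [Fin.val_castSucc]; exact h1.symm)
        have h3 : ¬ (s : ℕ) < s' := by omega
        rw [if_neg h3, if_pos h2, ← h1]
        simp
      · have h2 : s' ≠ s.castSucc := by
          intro h3
          rw [h3, Fin.val_castSucc] at h1
          exact lt_irrefl _ h1
        have h3 : ¬ (s : ℕ) < s' := by omega
        rw [if_neg h3, if_neg h2, Nat.choose_eq_zero_of_lt h1]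
        simp
    rw [Finset.sum_congr rfl fun s' _ => e2 s', Finset.sum_add_distrib, ← hS]
    congr 1
    rw [Finset.sum_ite_eq' Finset.univ s.castSucc (fun s' => 2 ^ (s : ℕ) * e s'),
      if_pos (Finset.mem_univ _)]
  have hS1 : |S| ≤ (n + 2) * (2 ^ (n + 1) * 2 ^ (n + 1) * 4 ^ (n + 1)) * N := by
    rw [hS]
    refine (Finset.abs_sum_le_sum_abs _ _).trans ?_
    calc ∑ s' : Fin (n + 2), |if (s : ℕ) < s' then ((Nat.choose s' s : ℕ) : ℝ) *
          ((2 : ℕ) : ℝ) ^ (s : ℕ) * x ^ ((s' : ℕ) - (s : ℕ)) * e s' else 0| ≤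
        ∑ _s' : Fin (n + 2), 2 ^ (n + 1) * 2 ^ (n + 1) * 4 ^ (n + 1) * N := by
          refine Finset.sum_le_sum fun s' _ => ?_
          split_ifs with h1
          · have hs1 := s.2
            have hs2 := s'.2
            rw [abs_mul, abs_mul, abs_mul, abs_pow x]
            have a1 : |((Nat.choose s' s : ℕ) : ℝ)| ≤ 2 ^ (n + 1) := by
              rw [abs_of_nonneg (Nat.cast_nonneg _)]
              have b1 : Nat.choose s' s ≤ 2 ^ (n + 1) :=
                (Nat.choose_le_two_pow _ _).trans (Nat.pow_le_pow_right (by norm_num) (by omega))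
              exact_mod_cast b1
            have a2 : |((2 : ℕ) : ℝ) ^ (s : ℕ)| ≤ 2 ^ (n + 1) := by
              rw [abs_of_nonneg (by positivity)]
              push_cast
              exact pow_le_pow_right₀ (by norm_num) (by omega)
            have a3 : |x| ^ ((s' : ℕ) - (s : ℕ)) ≤ 4 ^ (n + 1) :=
              (pow_le_pow_left₀ (abs_nonneg _) hx _).trans
                (pow_le_pow_right₀ (by norm_num) (by omega))
            exact mul_le_mul (mul_le_mul (mul_le_mul a1 a2 (abs_nonneg _) (by positivity)) a3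
              (by positivity) (by positivity)) (hs' s' h1) (abs_nonneg _) (by positivity)
          · rw [abs_zero]
            positivity
      _ = _ := by
          rw [Finset.sum_const, Finset.card_univ, Fintype.card_fin, nsmul_eq_mul]
          push_cast
          ring
  have e3 : shs 2 x e s = S - (2 ^ (n + 1) - 2 ^ (s : ℕ)) * e s.castSucc := by
    unfold shs
    rw [e1]
    push_cast
    ring
  have h5 : (1 : ℝ) ≤ 2 ^ (n + 1) - 2 ^ (s : ℕ) := by
    have h6 : (2 : ℝ) ^ (s : ℕ) ≤ 2 ^ n :=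
      pow_le_pow_right₀ (by norm_num) (by have := s.2; omega)
    have h7 : (2 : ℝ) ^ (n + 1) = 2 * 2 ^ n := by ring
    have h8 : (1 : ℝ) ≤ 2 ^ n := one_le_pow₀ (by norm_num)
    linarith
  have h6 : (2 ^ (n + 1) - 2 ^ (s : ℕ)) * e s.castSucc = S - shs 2 x e s := by
    rw [e3]
    ring
  have h7 : |(2 ^ (n + 1) - 2 ^ (s : ℕ)) * e s.castSucc| ≤ Kd n * N := by
    rw [h6]
    refine (abs_sub _ _).trans ?_
    unfold Kd
    nlinarith
  rw [abs_mul, abs_of_pos (by linarith)] at h7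
  have h8 : |e s.castSucc| ≤ (2 ^ (n + 1) - 2 ^ (s : ℕ)) * |e s.castSucc| := by
    have := abs_nonneg (e s.castSucc)
    nlinarith
  exact h8.trans h7

/-- **All coefficients.** -/
theorem shs_all (hn : 1 ≤ n) {x1 x2 L : ℝ} (hL : 1 ≤ L) (hx1 : 1 ≤ L * |x1|) (hx2 : |x2| ≤ 4)
    (e : Fin (n + 2) → ℝ) (h1 : ∀ s : Fin (n + 1), s ≠ 0 → |shs 1 x1 e s| ≤ 1)
    (h2 : ∀ s : Fin (n + 1), s ≠ 0 → |shs 2 x2 e s| ≤ 1) :
    ∀ s : Fin (n + 2), s ≠ 0 → |e s| ≤ Kd n ^ (n + 1) * L := by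
  have hK := Kd_one n
  have key : ∀ m : ℕ, ∀ s : Fin (n + 2), s ≠ 0 → n + 1 ≤ s + m → |e s| ≤ Kd n ^ m * L := by
    intro m
    induction m with
    | zero =>
      intro s _ h
      have h3 : s = Fin.last (n + 1) := Fin.ext (by rw [Fin.val_last]; have := s.2; omega)
      have h4 := h1 (Fin.last n) (by
        intro h5
        have h6 := congrArg Fin.val h5
        rw [Fin.val_last, Fin.val_zero] at h6
        omega)
      rw [shs_top, abs_mul, abs_mul] at h4
      rw [h3, pow_zero, one_mul]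
      have h5 : (1 : ℝ) ≤ |(n : ℝ) + 1| := by
        rw [abs_of_nonneg (by positivity)]
        have : (0 : ℝ) ≤ n := Nat.cast_nonneg n
        linarith
      have h6 := abs_nonneg x1
      have h7 := abs_nonneg (e (Fin.last (n + 1)))
      have h8 : |x1| * |e (Fin.last (n + 1))| ≤ 1 := by
        have : |x1| * |e (Fin.last (n + 1))| ≤ |(n : ℝ) + 1| * |x1| * |e (Fin.last (n + 1))| := by
          have h9 : 0 ≤ |x1| * |e (Fin.last (n + 1))| := mul_nonneg h6 h7
          nlinarith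
        linarith
      calc |e (Fin.last (n + 1))| = 1 * |e (Fin.last (n + 1))| := (one_mul _).symm
        _ ≤ L * |x1| * |e (Fin.last (n + 1))| := mul_le_mul_of_nonneg_right hx1 h7
        _ = L * (|x1| * |e (Fin.last (n + 1))|) := by ring
        _ ≤ L * 1 := mul_le_mul_of_nonneg_left h8 (by linarith)
        _ = L := mul_one L
    | succ m ih =>
      intro s h0 h
      by_cases h3 : n + 1 ≤ s + m
      · refine (ih s h0 h3).trans ?_
        rw [pow_succ]
        have : 0 ≤ Kd n ^ m * L := by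
          have : 0 < Kd n := by linarith
          positivity
        nlinarith
      · have h4 : (s : ℕ) < n + 1 := by omega
        obtain ⟨r, hr⟩ : ∃ r : Fin (n + 1), r = ⟨s, h4⟩ := ⟨_, rfl⟩
        have h5 : r.castSucc = s := by
          rw [hr]
          exact Fin.ext rfl
        have h6 : r ≠ 0 := by
          intro h7
          apply h0
          rw [← h5, h7]
          rfl
        have h8 := shs_low hx2 e r (N := Kd n ^ m * L) (by
          have : 1 ≤ Kd n ^ m := one_le_pow₀ hK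
          nlinarith) (h2 r h6) (fun s' hs' => by
            have h9 : (r : ℕ) = s := by rw [hr]
            refine ih s' ?_ (by omega)
            intro h10
            rw [h10, Fin.val_zero] at hs'
            omega)
        rw [h5] at h8
        rw [pow_succ]
        linarith
  intro s h0
  exact key (n + 1) s h0 (by omega)

theorem OkG.mono {D : QD c k} {bs : D.VV → Fin (n + 1) → Fin c → ℝ} {X : ℕ} {C q q' : ℝ}
    (h : OkG D bs X C q) (hq : q' ≤ q) : OkG D bs X C q' :=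
  ⟨h.mu_nn, h.mu_le, h.vp_nn, h.vp_le, h.mu_sp, h.vp_sp, h.tau_r, h.y_r, h.E_b, h.bs_b,
    fun t => hq.trans (h.deg_T t), fun v => hq.trans (h.deg_V v), h.g_eq, h.g_A⟩

theorem absb_mono {Ω : Type} [Fintype Ω] {p : Ω → ℝ} {R : Ω → Fin c → ℤ} {A : Set (Fin c → ℤ)}
    {ε ε' : ℝ} (h : Absb p R A ε) (he : ε ≤ ε') : Absb p R A ε' := by
  intro Γ _ q hq m x hx s
  refine (h Γ inferInstance q hq m x hx s).trans ?_
  have h2 : 0 ≤ ∑ i, |(s i : ℝ)| := Finset.sum_nonneg fun i _ => abs_nonneg _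
  nlinarith

open Classical in
/-- **(V): from degree `n` to degree `n + 1`.** -/
theorem v_succ (hn : 1 ≤ n) (hV : VStmt c k n) : VStmt c k (n + 1) := by
  intro C η τ hC hη hτ
  obtain ⟨κ, hκ⟩ : ∃ κ : ℝ, κ = min 1 (η / (8 * (c + 1))) := ⟨_, rfl⟩
  have hκ0 : 0 < κ := by rw [hκ]; positivity
  have hκ1 : κ ≤ 1 := by rw [hκ]; exact min_le_left _ _
  have hc0 : (0 : ℝ) ≤ c := Nat.cast_nonneg c
  have hκ2 : c * κ ≤ η / 8 := by
    have h1 : κ ≤ η / (8 * (c + 1)) := by rw [hκ]; exact min_le_right _ _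
    have h2 : c * κ ≤ c * (η / (8 * (c + 1))) := mul_le_mul_of_nonneg_left h1 hc0
    have h3 : c * (η / (8 * (c + 1))) = η / 8 * (c / (c + 1)) := by field_simp
    have h4 : (c : ℝ) / (c + 1) ≤ 1 := by
      rw [div_le_one (by positivity)]
      linarith
    rw [h3] at h2
    nlinarith
  obtain ⟨ka2, ε2, X2, hka2, hε2, H2⟩ := pair_step hV (al := 2) (by norm_num) C (η / 8) (τ / 2) κ
    hC (by positivity) (by positivity) hκ0 hκ1
  obtain ⟨τ1, hτ1⟩ : ∃ τ1 : ℝ, τ1 = min (τ / 2) (ka2 / 2) := ⟨_, rfl⟩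
  have hτ10 : 0 < τ1 := by rw [hτ1]; positivity
  have hτ11 : τ1 ≤ τ / 2 := by rw [hτ1]; exact min_le_left _ _
  have hτ12 : τ1 ≤ ka2 / 2 := by rw [hτ1]; exact min_le_right _ _
  obtain ⟨ka1, ε1, X1, hka1, hε1, H1⟩ := pair_step hV (al := 1) le_rfl C (η / 8) τ1 κ
    hC (by positivity) hτ10 hκ0 hκ1
  obtain ⟨K, hK⟩ : ∃ K : ℝ, K = Kd n ^ (n + 1) := ⟨_, rfl⟩
  have hK1 : 1 ≤ K := by rw [hK]; exact one_le_pow₀ (Kd_one n)
  obtain ⟨Kt, hKt⟩ : ∃ Kt : ℝ, Kt = Kp c + (c * Real.log K + c * Real.log 5) := ⟨_, rfl⟩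
  obtain ⟨X3, hX3⟩ := exists_nat_ge (Kt / (η / 2))
  refine ⟨min ka1 (ka2 / 2), min ε1 ε2, max X1 (max X2 X3), by positivity, by positivity, ?_⟩
  intro D bs X hX hD Ω _ p R hp hA J _ _ j0 P hP
  have hXR : (0 : ℝ) ≤ X := Nat.cast_nonneg X
  have hXX1 : X1 ≤ X := (le_max_left _ _).trans hX
  have hXX2 : X2 ≤ X := (le_max_left _ _).trans ((le_max_right _ _).trans hX)
  have hXX3 : (X3 : ℝ) ≤ X := by
    exact_mod_cast (le_max_right _ _).trans ((le_max_right _ _).trans hX)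
  have hmono : ∀ a b : ℝ, a ≤ b → (2 : ℝ) ^ (-(b * X)) ≤ (2 : ℝ) ^ (-(a * X)) := by
    intro a b hab
    refine Real.rpow_le_rpow_of_exponent_le (by norm_num) ?_
    nlinarith
  have q1 : (2 : ℝ) ^ (-(ka1 * X)) ≤ (2 : ℝ) ^ (-(min ka1 (ka2 / 2) * X)) :=
    hmono _ _ (min_le_left _ _)
  have q2 : (2 : ℝ) ^ (-(ka2 / 2 * X)) ≤ (2 : ℝ) ^ (-(min ka1 (ka2 / 2) * X)) :=
    hmono _ _ (min_le_right _ _)
  have q3 : (2 : ℝ) ^ (-(ka2 * X)) ≤ (2 : ℝ) ^ (-(ka2 / 2 * X)) := hmono _ _ (by linarith)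
  -- first pairs
  obtain ⟨B1, b1, hB1, hb11, hb12, hS1⟩ := H1 D bs X hXX1 (hD.mono q1) Ω _ p R hp
    (absb_mono hA (mul_le_mul_of_nonneg_right (min_le_left _ _) hXR)) J _ _ j0 P
    ⟨hP.nn, hP.mg, q1.trans hP.tot, fun W hW => q1.trans (hP.cn W hW)⟩
  obtain ⟨P1, hP1⟩ : ∃ P1 : (J → D.VV) → ℝ, P1 = fun W =>
      if Kn D (fun v => shf 1 ((b1 : ℝ) / 2 ^ X) (bs v)) X B1 W then P W else 0 := ⟨_, rfl⟩
  have hP1le : ∀ W, P1 W ≤ P W := by
    intro W
    rw [hP1]
    beta_reduce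
    split_ifs
    · exact le_rfl
    · exact hP.nn W
  have hP1nn : ∀ W, 0 ≤ P1 W := by
    intro W
    rw [hP1]
    beta_reduce
    split_ifs
    · exact hP.nn W
    · exact le_rfl
  have hP1t : (2 : ℝ) ^ (-(τ1 * X)) * ∑ W, P W ≤ ∑ W, P1 W := by
    rw [hP1]
    exact hS1
  have hW1 : Wt D j0 P1 ((2 : ℝ) ^ (-(ka2 * X))) := by
    refine ⟨hP1nn, fun v => ?_, ?_, fun W hW => ?_⟩
    · refine le_trans (Finset.sum_le_sum fun W _ => ?_) (hP.mg v)
      split_ifs
      · exact hP1le W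
      · exact le_rfl
    · refine le_trans ?_ hP1t
      have h1 : (2 : ℝ) ^ (-(ka2 * X)) = (2 : ℝ) ^ (-(ka2 / 2 * X)) * (2 : ℝ) ^ (-(ka2 / 2 * X)) := by
        rw [← Real.rpow_add (by norm_num)]
        congr 1
        ring
      rw [h1]
      exact mul_le_mul (hmono _ _ hτ12) (q2.trans hP.tot) (by positivity) (by positivity)
    · exact (q3.trans q2).trans (hP.cn W (lt_of_lt_of_le hW (hP1le W)))
  obtain ⟨B2, b2, hB2, hb21, hb22, hS2⟩ := H2 D bs X hXX2 (hD.mono (q3.trans q2)) Ω _ p R hp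
    (absb_mono hA (mul_le_mul_of_nonneg_right (min_le_right _ _) hXR)) J _ _ j0 P1 hW1
  -- the body
  obtain ⟨S, hS, hSA, hSB⟩ := Bd.pair hp hB1 hB2
  obtain ⟨L, hL⟩ : ∃ L : ℝ, L = (2 : ℝ) ^ (κ * X) := ⟨_, rfl⟩
  have hL1 : 1 ≤ L := by
    rw [hL]
    exact Real.one_le_rpow (by norm_num) (by positivity)
  have hl1 : 1 ≤ K * L := one_le_mul_of_one_le_of_one_le hK1 hL1
  have hl0 : 0 < K * L := by linarith
  refine ⟨(K * L) • S, (Bd.scale hp hS hl1).mono ?_, ?_⟩
  · have h1 : Real.log (K * L) = Real.log K + κ * X * Real.log 2 := by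
      rw [Real.log_mul (by positivity) (by positivity), hL, Real.log_rpow (by norm_num)]
    rw [h1]
    have h2 : Kt ≤ η / 2 * X := by
      have h3 : Kt / (η / 2) ≤ X := hX3.trans hXX3
      rwa [div_le_iff₀ (by positivity), mul_comm] at h3
    have h4 : Real.log 2 ≤ 1 := by
      have := Real.log_two_lt_d9
      linarith
    have h5 : (c : ℝ) * (κ * X * Real.log 2) ≤ η / 8 * X := by
      have h6 : c * κ * X ≤ η / 8 * X := mul_le_mul_of_nonneg_right hκ2 hXR
      have h7 : 0 ≤ c * κ * X := by positivity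
      calc (c : ℝ) * (κ * X * Real.log 2) = c * κ * X * Real.log 2 := by ring
        _ ≤ c * κ * X * 1 := mul_le_mul_of_nonneg_left h4 h7
        _ ≤ _ := by linarith
    rw [hKt] at h2
    have h8 : η / 8 * X + η / 8 * X + Kp c + (c * (Real.log K + κ * X * Real.log 2) +
        c * Real.log 5) = η / 4 * X + (Kp c + (c * Real.log K + c * Real.log 5)) +
        c * (κ * X * Real.log 2) := by ring
    have h9 : 0 ≤ η * X := by positivity
    nlinarith
  · have hfin : ∀ W, (if Kn D (fun v => shf 2 ((b2 : ℝ) / 2 ^ X) (bs v)) X B2 W then P1 W else 0) ≤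
        if Kn D bs X ((K * L) • S) W then P W else 0 := by
      intro W
      by_cases h1 : Kn D (fun v => shf 2 ((b2 : ℝ) / 2 ^ X) (bs v)) X B2 W
      · rw [if_pos h1, hP1]
        beta_reduce
        by_cases h2 : Kn D (fun v => shf 1 ((b1 : ℝ) / 2 ^ X) (bs v)) X B1 W
        · rw [if_pos h2, if_pos]
          intro s hs0 a a' u v hr
          refine inb_smul hS.det hl0 fun b => ?_
          have h3 := shs_all hn (x1 := (b1 : ℝ) / 2 ^ X) (x2 := (b2 : ℝ) / 2 ^ X) hL1 (by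
            have h4 : (0 : ℝ) < 2 ^ X := by positivity
            rw [abs_div, abs_of_pos h4, ← mul_div_assoc, le_div_iff₀ h4, one_mul]
            have h5 : (2 : ℝ) ^ X = L * (2 : ℝ) ^ ((1 - κ) * X) := by
              rw [hL, ← Real.rpow_natCast 2 X, ← Real.rpow_add (by norm_num)]
              congr 1
              ring
            rw [h5]
            exact mul_le_mul_of_nonneg_left hb11 (by linarith)) (by
            have h4 : (0 : ℝ) < 2 ^ X := by positivity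
            rw [abs_div, abs_of_pos h4, div_le_iff₀ h4]
            refine hb22.trans (le_of_eq ?_)
            push_cast
            ring) (fun s' => (S⁻¹ *ᵥ dfc (fun l => bs l s') X v (W ∘ a) (W ∘ a')) b)
            (fun s' hs' => by
              rw [← mulVec_shf, ← dfc_shf]
              exact hSA _ (h2 s' hs' a a' u v hr) b)
            (fun s' hs' => by
              rw [← mulVec_shf, ← dfc_shf]
              exact hSB _ (h1 s' hs' a a' u v hr) b) s hs0
          rw [hK]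
          exact h3
        · rw [if_neg h2]
          split_ifs
          · exact hP.nn W
          · exact le_rfl
      · rw [if_neg h1]
        split_ifs
        · exact hP.nn W
        · exact le_rfl
    refine le_trans ?_ (hS2.trans (Finset.sum_le_sum fun W _ => hfin W))
    have h1 : (2 : ℝ) ^ (-(τ * X)) = (2 : ℝ) ^ (-(τ / 2 * X)) * (2 : ℝ) ^ (-(τ / 2 * X)) := by
      rw [← Real.rpow_add (by norm_num)]
      congr 1
      ring
    rw [h1, mul_assoc]
    refine mul_le_mul_of_nonneg_left (le_trans ?_ hP1t) (by positivity)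
    exact mul_le_mul_of_nonneg_right (hmono _ _ hτ11)
      (Finset.sum_nonneg fun W _ => hP.nn W)

/-- **(V) in every degree.** -/
theorem v_all (c k n : ℕ) (hn : 1 ≤ n) : VStmt c k n := by
  induction n, hn using Nat.le_induction with
  | base => exact v_one c k
  | succ n hn ih => exact v_succ hn ih

end Pool.BD64
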