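import Pool.Agent.H64.BD.Tls

/-!
# BODY of degree `n`: the defects of the coefficients

`Kn D bs X B W`: for two pairs of entries of `W` whose values of `y` differ in one coordinate only,
with a ratio `v / 2 ^ X`, the increments of every coefficient `bs · s`, `s > 0`, have the same ratio
up to the body `B`. `VStmt`: in a graph of degree `n` there is a body `B` in which `R` is full such
that many tuples `W` are in `Kn`. `v_one`: the case of degree one.
-/

set_option autoImplicit false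

namespace Pool.BD64

open Finset Real Matrix
open Pool.Agent.H49.Ent Pool.Agent.H32.Dense Pool.STK Pool.KS6 Pool.SLO
open Pool.FAD Pool.CLO
open Pool.POT (Tx)
open Pool.QC (mat xx QD inc Absb PairC cand_fin)

variable {c k n : ℕ}

/-- The values at the pairs `a`, `a'` differ only in the coordinate `u`, with the ratio `v / 2 ^ X`
of the differences. -/
def Rel {α : Type} (X : ℕ) (y : α → Fin k → ℤ) (u : Fin k) (a a' : Fin 2 → α) (v : ℤ) : Prop :=
  (∀ j, j ≠ u → inc y a j = 0 ∧ inc y a' j = 0) ∧ |v| ≤ 2 ^ X ∧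
    |2 ^ X * inc y a' u - v * inc y a u| ≤ 4 * 2 ^ X

/-- The defect. -/
noncomputable def dfc {α : Type} (f : α → Fin c → ℝ) (X : ℕ) (v : ℤ) (a a' : Fin 2 → α) :
    Fin c → ℝ := inc f a' - ((v : ℝ) / 2 ^ X) • inc f a

/-- All defects of the entries of `W` lie in `B`. -/
def Kn (D : QD c k) (bs : D.VV → Fin (n + 1) → Fin c → ℝ) (X : ℕ)
    (B : Matrix (Fin c) (Fin c) ℝ) {J : Type} (W : J → D.VV) : Prop :=
  ∀ s : Fin (n + 1), s ≠ 0 → ∀ (a a' : Fin 2 → J) (u : Fin k) (v : ℤ),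
    Rel X D.y u (W ∘ a) (W ∘ a') v → InB B (dfc (fun l => bs l s) X v (W ∘ a) (W ∘ a'))

open Classical in
/-- Weights on tuples. -/
structure Wt (D : QD c k) {J : Type} [Fintype J] [DecidableEq J] (j0 : J) (P : (J → D.VV) → ℝ)
    (q : ℝ) : Prop where
  nn : ∀ W, 0 ≤ P W
  mg : ∀ v, (∑ W, if W j0 = v then P W else 0) ≤ D.vp v
  tot : q ≤ ∑ W, P W
  cn : ∀ W, 0 < P W → q ≤ D.cnT W

open Classical in
/-- **(V)** -/
def VStmt (c k n : ℕ) : Prop :=
  ∀ C η τ : ℝ, 1 ≤ C → 0 < η → 0 < τ → ∃ (ka ε0 : ℝ) (X0 : ℕ), 0 < ka ∧ 0 < ε0 ∧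
  ∀ (D : QD c k) (bs : D.VV → Fin (n + 1) → Fin c → ℝ) (X : ℕ), X0 ≤ X →
    OkG D bs X C ((2 : ℝ) ^ (-(ka * X))) →
  ∀ (Ω : Type) (_ : Fintype Ω) (p : Ω → ℝ) (R : Ω → Fin c → ℤ), IsLaw p →
    Absb p R D.A (ε0 * X) →
  ∀ (J : Type) (_ : Fintype J) (_ : DecidableEq J) (j0 : J) (P : (J → D.VV) → ℝ),
    Wt D j0 P ((2 : ℝ) ^ (-(ka * X))) →
    ∃ B, Bd p R X (η * X) B ∧
      (2 : ℝ) ^ (-(τ * X)) * ∑ W, P W ≤ ∑ W, if Kn D bs X B W then P W else 0

/-- Common neighbours of a part of the tuple. -/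
theorem cnT_le (D : QD c k) (hD : ∀ t, 0 ≤ D.mu t) {J J' : Type} (W : J → D.VV) (σ : J' → J) :
    D.cnT W ≤ D.cnT (fun j => W (σ j)) := by
  classical
  unfold QD.cnT
  refine Finset.sum_le_sum fun t _ => ?_
  by_cases h : ∀ j, D.adj t (W j)
  · rw [if_pos h, if_pos fun j => h (σ j)]
  · rw [if_neg h]
    split_ifs
    · exact hD t
    · exact le_rfl

/-- The graph of degree one. -/
noncomputable def deg1 (D : QD c k) (bs : D.VV → Fin (1 + 1) → Fin c → ℝ) (X : ℕ) : QD c k :=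
  { D with
    be := fun v => bs v 1
    b0 := fun v i => D.b0 v i + bs v 0 i * 2 ^ X }

theorem pol_one (X : ℕ) (β : Fin (1 + 1) → Fin c → ℝ) (t : ℤ) (i : Fin c) :
    pol X β t i = t * β 1 i + β 0 i * 2 ^ X := by
  unfold pol
  have e : (∑ s : Fin (1 + 1), β s i * ((t : ℝ) / 2 ^ X) ^ (s : ℕ) * 2 ^ X) =
      β 0 i * ((t : ℝ) / 2 ^ X) ^ ((0 : Fin (1 + 1)) : ℕ) * 2 ^ X +
      β 1 i * ((t : ℝ) / 2 ^ X) ^ ((1 : Fin (1 + 1)) : ℕ) * 2 ^ X := Fin.sum_univ_two _
  rw [e]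
  have hX : (0 : ℝ) < 2 ^ X := by positivity
  rw [Fin.val_zero, pow_zero, Fin.val_one, pow_one]
  field_simp
  ring

theorem deg1_ok {D : QD c k} {bs : D.VV → Fin (1 + 1) → Fin c → ℝ} {X : ℕ} {C q : ℝ}
    (h : OkG D bs X C q) : (deg1 D bs X).Ok X C q where
  mu_nn := h.mu_nn
  mu_le := h.mu_le
  vp_nn := h.vp_nn
  vp_le := h.vp_le
  mu_sp := h.mu_sp
  vp_sp := h.vp_sp
  tau_r := h.tau_r
  y_r := h.y_r
  E_b := h.E_b
  be_b := fun v => h.bs_b v 1
  deg_T := h.deg_T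
  deg_V := h.deg_V
  g_eq := by
    intro t v hv i
    refine le_trans (le_of_eq ?_) (h.g_eq t v hv i)
    congr 1
    rw [pol_one]
    show (D.g t v i : ℝ) - (D.tau t * bs v 1 i - ∑ u, D.E t u i * D.y v u + D.a0 t i +
      (D.b0 v i + bs v 0 i * 2 ^ X)) = _
    ring
  g_A := h.g_A

/-- **(V) in degree one.** -/
theorem v_one (c k : ℕ) : VStmt c k 1 := by
  classical
  intro C η τ hC hη hτ
  obtain ⟨m, ka, ε0, C1, X0, hka, hε, hC1, H⟩ := Pool.QT64.full_stmt c k C η hC hη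
  refine ⟨ka, ε0, X0, hka, hε, ?_⟩
  intro D bs X hX hD Ω _ p R hp hA J _ _ j0 P hP
  have hD1 := deg1_ok hD
  have hr := H (deg1 D bs X) X hX hD1 Ω _ p R hp hA
  have h2X : (0 : ℝ) < 2 ^ X := by positivity
  set q1 : ℝ := ((2 : ℝ) ^ (-(ka * X))) ^ C1 with hq1
  have hq1le : q1 ≤ (2 : ℝ) ^ (-(ka * X)) := by
    have h4 : (2 : ℝ) ^ (-(ka * X)) ≤ 1 := by
      apply Real.rpow_le_one_of_one_le_of_nonpos (by norm_num)
      have : 0 ≤ ka * X := by positivity
      linarith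
    have h5 : (0 : ℝ) < (2 : ℝ) ^ (-(ka * X)) := by positivity
    calc ((2 : ℝ) ^ (-(ka * X))) ^ C1 ≤ ((2 : ℝ) ^ (-(ka * X))) ^ (1 : ℝ) :=
          Real.rpow_le_rpow_of_exponent_ge h5 h4 hC1
      _ = _ := Real.rpow_one _
  set S : Set (Fin c → ℝ) := {δ | (deg1 D bs X).Cand X m q1 0 false δ} with hS
  have hSf : S.Finite := cand_fin _ _ _ _ _ _
  have : Finite S := hSf
  let F : S ⊕ Fin c → Fin c → ℝ := fun z => match z with
    | .inl δ => δ.1
    | .inr i => Pi.single i ((2 : ℝ) ^ X)⁻¹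
  have hax : (mat fun b => F (Sum.inr b)) = Tx c X := by
    ext i j
    simp only [mat, Matrix.of_apply, F, Tx, Matrix.diagonal_apply, Pi.single_apply]
  obtain ⟨f, hfd, hf⟩ := Pool.QC.exists_basis F (fun b => Sum.inr b) (by
    rw [hax]
    exact Pool.POT.Tx_det c X)
  set B := mat fun b => F (f b) with hBd
  have hinv : ∀ i j, |B⁻¹ i j| ≤ 2 ^ X := by
    intro i j
    have e := hf (Sum.inr j) i
    have e1 : F (Sum.inr j) = Pi.single j ((2 : ℝ) ^ X)⁻¹ := rfl
    rw [e1, Matrix.mulVec_single] at e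
    simp only [Pi.smul_apply, MulOpposite.smul_eq_mul_unop, MulOpposite.unop_op,
      Matrix.col_apply] at e
    rw [abs_mul, abs_of_pos (inv_pos.2 h2X), ← div_eq_mul_inv, div_le_one h2X] at e
    exact e
  have hfull := hr (fun b => F (f b)) (by
    intro b
    rcases hb : f b with δ | i
    · left
      exact ⟨false, δ.2⟩
    · exact Or.inr ⟨i, rfl⟩) hfd hinv
  have hT : (((2 : ℝ) ^ X)⁻¹ • (1 : Matrix (Fin c) (Fin c) ℝ)) = Tx c X := by
    unfold Tx
    rw [← Matrix.diagonal_one, ← Matrix.diagonal_smul]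
    congr 1
    funext i
    simp
  rw [hT] at hfull
  refine ⟨B, ⟨hfd, hinv, hfull⟩, ?_⟩
  -- all tuples are known
  have hK : ∀ W, 0 < P W → Kn D bs X B W := by
    intro W hW s hs0 a a' u v hrel
    have hs1 : s = 1 := by
      have h1 : (s : ℕ) < 2 := s.2
      have h2 : (s : ℕ) ≠ 0 := fun h => hs0 (Fin.ext h)
      refine Fin.ext ?_
      rw [Fin.val_one]
      omega
    rw [hs1]
    have hcand : (deg1 D bs X).Cand X m q1 0 false (dfc (fun l => bs l 1) X v (W ∘ a) (W ∘ a')) := by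
      refine ⟨u, Or.inr ⟨W ∘ a, W ∘ a', ?_, hrel.1, ?_, Or.inr ⟨rfl, v, hrel.2.1, hrel.2.2, rfl⟩⟩⟩
      · refine hq1le.trans ((hP.cn W hW).trans ?_)
        have h1 := cnT_le D hD.mu_nn W (Sum.elim a a')
        refine h1.trans (le_of_eq ?_)
        unfold QD.cnT
        refine Finset.sum_congr rfl fun t _ => ?_
        have h2 : (∀ j, D.adj t (W (Sum.elim a a' j))) ↔
            ∀ j, (deg1 D bs X).adj t (Sum.elim (W ∘ a) (W ∘ a') j) := by
          constructor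
          · rintro h (j | j)
            · exact h (Sum.inl j)
            · exact h (Sum.inr j)
          · rintro h (j | j)
            · exact h (Sum.inl j)
            · exact h (Sum.inr j)
        by_cases h3 : ∀ j, D.adj t (W (Sum.elim a a' j))
        · exact (if_pos h3).trans (if_pos (h2.1 h3)).symm
        · exact (if_neg h3).trans (if_neg fun h4 => h3 (h2.2 h4)).symm
      · show |inc D.y (W ∘ a) u| * 2 ^ 0 ≤ 2 ^ (X + 1)
        rw [pow_zero, mul_one, pow_succ]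
        have r1 := hD.y_r (W (a 0)) u
        have r2 := hD.y_r (W (a 1)) u
        have e : inc D.y (W ∘ a) u = D.y (W (a 0)) u - D.y (W (a 1)) u := rfl
        have : (0 : ℤ) < 2 ^ X := by positivity
        rw [e, abs_le]
        constructor <;> linarith [r1.1, r1.2, r2.1, r2.2]
    exact hf (Sum.inl ⟨_, hcand⟩)
  have h1 : ∀ W, (if Kn D bs X B W then P W else 0) = P W := by
    intro W
    rcases (hP.nn W).eq_or_lt with h0 | h0
    · rw [← h0, ite_self]
    · rw [if_pos (hK W h0)]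
  rw [Finset.sum_congr rfl fun W _ => h1 W]
  have h2 : (2 : ℝ) ^ (-(τ * X)) ≤ 1 := by
    apply Real.rpow_le_one_of_one_le_of_nonpos (by norm_num)
    have : 0 ≤ τ * X := by positivity
    linarith
  have h3 : 0 ≤ ∑ W, P W := Finset.sum_nonneg fun W _ => hP.nn W
  nlinarith

end Pool.BD64
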