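import Pool.Agent.H64.BD.Tls
import Pool.Agent.H89.CLO.Win

/-!
# BODY of degree `n`: one more direction

If `R` is full in `B` and absorbs a signal which is, up to the body `B`, a multiple `Y` of the
vector `δ` with `Y` almost uniform, then `R` is full in a body which contains `B` and `δ`.
-/

set_option autoImplicit false

namespace Pool.BD64

open Finset Real Matrix
open Pool.Agent.H49.Ent Pool.Agent.H32.Dense Pool.STK Pool.KS6 Pool.SLO Pool.RC21
open Pool.FAD Pool.CLO Pool.OCK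
open Pool.POT (Tx)
open Pool.QC (mat xx)

variable {c : ℕ} {Ω Γ : Type} [Fintype Ω] [Fintype Γ] {p : Ω → ℝ} {q : Γ → ℝ}

/-- The constant. -/
noncomputable def Ka (c : ℕ) (a D : ℝ) : ℝ :=
  Real.log (4 + 4 * (c * D)) + Cl c a 2 + (c * Real.log 2 + c * Real.log 5)

/-- **One more direction.** -/
theorem Bd.add (hp : IsLaw p) (hq : IsLaw q) {R : Ω → Fin c → ℤ} {X : ℕ} {η : ℝ}
    {B : Matrix (Fin c) (Fin c) ℝ} (hB : Bd p R X η B) (s : Γ → Fin c → ℤ) (δ : Fin c → ℝ)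
    (Y : Γ → ℤ) {ε κ a D : ℝ} (ha : 0 ≤ a) (hD : 0 ≤ D) (hε : 0 ≤ ε) (hκ : 0 ≤ κ)
    (hY : ∀ γ, 0 < q γ → |Y γ| < 2 ^ X) (hH : X * Real.log 2 - κ ≤ H q Y)
    (hz : H (pr q p) (fun w => R w.2 + s w.1) ≤ H p R + ε)
    (hr : ∀ γ, 0 < q γ → ∀ b, |(B⁻¹ *ᵥ fun i => ((s γ i : ℝ) + δ i * Y γ) / 2 ^ X) b| ≤ a)
    (hδ : ∀ i, |δ i| ≤ D) :
    ∃ S, Bd p R X (η + (ε + κ) + Ka c a D) S ∧ (∀ x, InB B x → InB S x) ∧ InB S δ := by
  classical
  have hX : (0 : ℝ) < 2 ^ X := by positivity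
  have hc0 : (0 : ℝ) ≤ c := Nat.cast_nonneg c
  have hCl : 0 ≤ Cl c a 2 := by
    unfold Cl
    have h1 : (0 : ℝ) ≤ Real.log 2 := Real.log_nonneg (by norm_num)
    have h2 : (0 : ℝ) ≤ Real.log (2 * (2 * (2 * a) + 1 + 2 + 1) + 1) :=
      Real.log_nonneg (by linarith)
    have h3 : (0 : ℝ) ≤ Real.log (2 * (2 * 2 * (1 + a) + 1) + 1) := Real.log_nonneg (by linarith)
    have h4 : (0 : ℝ) ≤ Real.log (2 * (2 + 1) + 1) := Real.log_nonneg (by norm_num)
    positivity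
  have hL : 0 ≤ Real.log (4 + 4 * (c * D)) :=
    Real.log_nonneg (by
      have : 0 ≤ c * D := by positivity
      linarith)
  have hL2 : (0 : ℝ) ≤ c * Real.log 2 + c * Real.log 5 := by
    have h1 : (0 : ℝ) ≤ Real.log 2 := Real.log_nonneg (by norm_num)
    have h2 : (0 : ℝ) ≤ Real.log 5 := Real.log_nonneg (by norm_num)
    positivity
  have hKa : 0 ≤ Ka c a D := by
    unfold Ka
    linarith
  by_cases hin : InB B δ
  · exact ⟨B, hB.mono (by linarith), fun x hx => hx, hin⟩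
  -- the longest coordinate
  obtain ⟨v, hv⟩ : ∃ v : Fin c → ℝ, v = (-2 : ℝ) • δ := ⟨_, rfl⟩
  have hvV : B⁻¹ *ᵥ v = (-2 : ℝ) • (B⁻¹ *ᵥ δ) := by rw [hv, Matrix.mulVec_smul]
  unfold InB at hin
  push Not at hin
  obtain ⟨b0, hb0⟩ := hin
  obtain ⟨k, hk⟩ : ∃ k, ∀ i, |(B⁻¹ *ᵥ v) i| ≤ |(B⁻¹ *ᵥ v) k| := by
    have : Nonempty (Fin c) := ⟨b0⟩
    exact Finite.exists_max fun i => |(B⁻¹ *ᵥ v) i|
  have hk1 : 2 < |(B⁻¹ *ᵥ v) k| := by
    refine lt_of_lt_of_le ?_ (hk b0)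
    rw [hvV, Pi.smul_apply, smul_eq_mul, abs_mul]
    norm_num
    linarith
  have hk0 : 0 < |(B⁻¹ *ᵥ v) k| := by linarith
  obtain ⟨ν, hν1, hν2⟩ : ∃ ν : ℕ, |(B⁻¹ *ᵥ v) k| ≤ 2 ^ ν ∧ (2 : ℝ) ^ ν ≤ 2 * |(B⁻¹ *ᵥ v) k| := by
    obtain ⟨n, hn1, hn2⟩ := exists_nat_pow_near (x := |(B⁻¹ *ᵥ v) k|) (y := (2 : ℝ)) (by linarith)
      (by norm_num)
    refine ⟨n + 1, hn2.le, ?_⟩
    rw [pow_succ]
    linarith
  have hprod : IsLaw (pr q p) := pr_law hq hp
  have hpos : ∀ w : Γ × Ω, 0 < pr q p w → 0 < q w.1 ∧ 0 < p w.2 := fun w hw =>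
    pr_pos hq.nonneg hp.nonneg hw
  obtain ⟨g, hg⟩ : ∃ g : Γ × Ω → ℝ, g = fun w => ((Y w.1 : ℝ) / 2 ^ X + 1) / 2 := ⟨_, rfl⟩
  obtain ⟨F, hF⟩ : ∃ F : Γ × Ω → Fin c → ℝ, F = fun w i =>
    δ i + ((s w.1 i : ℝ) + δ i * Y w.1) / 2 ^ X := ⟨_, rfl⟩
  have hCn : Cn (pr q p) (dg g 0) (fun w => B⁻¹ *ᵥ F w) a 0 := by
    refine ⟨fun _ => B⁻¹ *ᵥ δ, le_of_eq ?_⟩
    refine Ex_ind_zero hprod.nonneg fun w hw h => h fun i => ?_
    have e1 : F w = δ + fun i => ((s w.1 i : ℝ) + δ i * Y w.1) / 2 ^ X := by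
      rw [hF]
      rfl
    beta_reduce
    rw [e1, Matrix.mulVec_add, Pi.add_apply, add_sub_cancel_left]
    exact hr w.1 (hpos w hw).1 i
  have hv0 : ((2 : ℝ) ^ 0)⁻¹ • v = v := by
    rw [pow_zero, inv_one, one_smul]
  have key := loc hprod (fun w => xx R X w.2) g v F hB.det (Nat.zero_le ν) (a := a) (e := 0)
    (R := 2) ha (by norm_num) hCn k (by rw [hv0]; exact hk) (by rw [hv0]; linarith)
    (by rw [hv0, Nat.sub_zero]; exact hν1) (by rw [hv0, Nat.sub_zero]; exact hν2)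
  rw [hv0, Ph_snd hq hp, Ph_snd hq hp] at key
  -- the sum
  have hsum : (fun w : Γ × Ω => xx R X w.2 + (g w • v + F w)) = fun w i =>
      (((R w.2 + s w.1) i : ℤ) : ℝ) / 2 ^ X := by
    funext w i
    rw [hF, hg, hv]
    simp only [Pi.add_apply, Pi.smul_apply, smul_eq_mul, xx]
    push_cast
    field_simp
    ring
  rw [hsum] at key
  obtain ⟨z, hzz⟩ : ∃ z : Γ × Ω → Fin c → ℝ, z = fun w i =>
      (((R w.2 + s w.1) i : ℤ) : ℝ) / 2 ^ X := ⟨_, rfl⟩
  rw [← hzz] at key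
  have hzi : ∀ w w' : Γ × Ω, z w = z w' ↔ R w.2 + s w.1 = R w'.2 + s w'.1 := by
    intro w w'
    rw [hzz]
    constructor
    · intro h
      funext i
      have h1 := congrFun h i
      simp only [div_left_inj' hX.ne'] at h1
      exact_mod_cast h1
    · intro h
      funext i
      simp only [h]
  -- the entropies
  have e1 : CH (pr q p) z (fun _ => ()) ≤ CH (pr q p) z (dg g ν) + ε := by
    have a1 : CH (pr q p) z (fun _ => ()) ≤ H (pr q p) (fun w => R w.2 + s w.1) := by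
      rw [← CH_unit hprod.nonneg hprod.sum_one (fun w : Γ × Ω => R w.2 + s w.1)]
      refine CH_mono_left hprod.nonneg fun w w' _ _ h => ?_
      exact (hzi w w').2 (Prod.ext_iff.1 h).1
    have a2 : H p R ≤ CH (pr q p) z (dg g ν) := by
      rw [← CH_indep hq hp R]
      have b1 : CH (pr q p) (fun w => R w.2) (fun w => w.1) ≤
          CH (pr q p) z (fun w => w.1) := by
        refine CH_mono_left hprod.nonneg fun w w' _ _ h => ?_
        have h1 := (hzi w w').1 (Prod.ext_iff.1 h).1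
        have h2 : w.1 = w'.1 := (Prod.ext_iff.1 h).2
        rw [h2] at h1
        exact add_right_cancel h1
      refine b1.trans (CH_mono_cond hprod.nonneg fun w w' _ _ h => ?_)
      have h2 : w.1 = w'.1 := h
      unfold dg
      rw [hg]
      simp only [h2]
    linarith
  have hν3 : (2 : ℝ) ^ ν / 2 ^ X ≤ 4 * (c * D) := by
    have a1 : |(B⁻¹ *ᵥ v) k| ≤ 2 * (c * (2 ^ X * D)) := by
      rw [hvV, Pi.smul_apply, smul_eq_mul, abs_mul]
      have a2 : |(B⁻¹ *ᵥ δ) k| ≤ c * (2 ^ X * D) := by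
        unfold Matrix.mulVec dotProduct
        refine (Finset.abs_sum_le_sum_abs _ _).trans ?_
        calc ∑ j, |B⁻¹ k j * δ j| ≤ ∑ _j : Fin c, 2 ^ X * D := by
              refine Finset.sum_le_sum fun j _ => ?_
              rw [abs_mul]
              exact mul_le_mul (hB.inv k j) (hδ j) (abs_nonneg _) hX.le
          _ = c * (2 ^ X * D) := by simp
      norm_num
      exact a2
    rw [div_le_iff₀ hX]
    nlinarith
  have e2 : ν * Real.log 2 - (κ + Real.log (4 + 4 * (c * D))) ≤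
      CH (pr q p) (dg g ν) (fun _ => ()) := by
    have hY1 : H (pr q p) (fun w => Y w.1) = H q Y := H_fst hp Y
    have a1 : CH (pr q p) (fun w : Γ × Ω => Y w.1) (fun _ => ()) ≤
        CH (pr q p) (dg g ν) (fun _ => ()) +
        CH (pr q p) (fun w => Y w.1) (fun w => (dg g ν w, ())) :=
      CH_le_add hprod.nonneg _ _ _
    rw [CH_unit hprod.nonneg hprod.sum_one (fun w : Γ × Ω => Y w.1), hY1] at a1
    have a2 := CH_int hprod (fun w : Γ × Ω => Y w.1) (fun w => (dg g ν w, ()))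
      (fun _ => 2 * 2 ^ X / 2 ^ ν) (by
        intro w w' _ _ h
        have h1 := abs_sub_of_dg (Prod.ext_iff.1 h).1
        rw [hg] at h1
        have h2 : (2 : ℝ) ^ ν * (((Y w.1 : ℝ) / 2 ^ X + 1) / 2) - 2 ^ ν *
            (((Y w'.1 : ℝ) / 2 ^ X + 1) / 2) = 2 ^ ν / (2 * 2 ^ X) * ((Y w.1 : ℝ) - Y w'.1) := by
          field_simp
          ring
        simp only at h1
        rw [h2, abs_mul, abs_of_pos (by positivity)] at h1
        push_cast
        rw [le_div_iff₀ (by positivity)]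
        have h3 := mul_le_mul_of_nonneg_left h1 (by positivity : (0 : ℝ) ≤ 2 * 2 ^ X)
        calc |(Y w.1 : ℝ) - Y w'.1| * 2 ^ ν =
              2 * 2 ^ X * (2 ^ ν / (2 * 2 ^ X) * |(Y w.1 : ℝ) - Y w'.1|) := by field_simp
          _ ≤ 2 * 2 ^ X * 1 := h3
          _ = 2 * 2 ^ X := mul_one _)
    rw [Ex_const hprod.sum_one] at a2
    have a3 : (ν : ℝ) * Real.log 2 + Real.log (2 * (2 * 2 ^ X / 2 ^ ν) + 1) ≤
        X * Real.log 2 + Real.log (4 + 4 * (c * D)) := by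
      rw [← Real.log_pow, ← Real.log_pow, ← Real.log_mul (by positivity) (by positivity),
        ← Real.log_mul (by positivity) (by positivity)]
      refine Real.log_le_log (by positivity) ?_
      have h4 : (2 : ℝ) ^ ν * (2 * (2 * 2 ^ X / 2 ^ ν) + 1) = 4 * 2 ^ X + 2 ^ ν := by
        field_simp
        ring
      rw [h4]
      rw [div_le_iff₀ hX] at hν3
      linarith
    linarith
  have e3 := Phi_total hprod z g (fun w hw => by
    have h1 := hY w.1 (hpos w hw).1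
    have h2 : |(Y w.1 : ℝ)| < 2 ^ X := by exact_mod_cast h1
    rw [abs_lt] at h2
    rw [hg]
    simp only
    constructor
    · have : -1 ≤ (Y w.1 : ℝ) / 2 ^ X := by
        rw [le_div_iff₀ hX]
        linarith [h2.1]
      linarith
    · have : (Y w.1 : ℝ) / 2 ^ X < 1 := by
        rw [div_lt_iff₀ hX]
        linarith [h2.2]
      linarith) e1 e2
  -- the new body
  have hkne : (B⁻¹ *ᵥ v) k ≠ 0 := by
    intro h
    rw [h, abs_zero] at hk0
    exact lt_irrefl _ hk0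
  have hinc : Inc 2 B (upc B k v) := inc_upc hB.det k v hk (by linarith)
  have hdet : (upc B k v).det ≠ 0 := by
    rw [upc_det]
    exact mul_ne_zero hB.det hkne
  have hSv : (upc B k v)⁻¹ *ᵥ v = Pi.single k 1 := by
    have e4 : upc B k v *ᵥ (Pi.single k 1) = v := by
      funext i
      rw [Matrix.mulVec_single]
      simp only [MulOpposite.op_one, one_smul, Matrix.col_apply]
      exact upc_col hB.det k v i
    calc (upc B k v)⁻¹ *ᵥ v = (upc B k v)⁻¹ *ᵥ (upc B k v *ᵥ (Pi.single k 1)) := by rw [e4]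
      _ = Pi.single k 1 := by
        rw [Matrix.mulVec_mulVec, Matrix.nonsing_inv_mul _ (isUnit_iff_ne_zero.2 hdet),
          Matrix.one_mulVec]
  refine ⟨(2 : ℝ) • upc B k v, ⟨?_, fun i j => ?_, ?_⟩, fun x hx => ?_, ?_⟩
  · rw [Matrix.det_smul]
    exact mul_ne_zero (by positivity) hdet
  · have h1 := inc_inv hB.det hX.le hinc hB.inv i j
    rw [smul_inv hdet (by norm_num), Matrix.smul_apply, smul_eq_mul, abs_mul]
    norm_num
    linarith
  · have h4 := Ph_up hp (xx R X) hdet (inc_smul hdet (l := 2) (by norm_num))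
    rw [lv_smul hdet (by norm_num), show (2 : ℝ) * (1 + 1) + 1 = 5 by norm_num] at h4
    have h5 := hB.ph
    rw [zero_mul, add_zero] at key
    unfold Ka
    linarith
  · refine inb_smul hdet (by norm_num) fun b => ?_
    have := inc_vec hB.det zero_le_one hinc hx b
    linarith
  · refine inb_smul hdet (by norm_num) fun b => ?_
    have h1 : δ = (-1 / 2 : ℝ) • v := by
      rw [hv, smul_smul]
      norm_num
    rw [h1, Matrix.mulVec_smul, hSv, Pi.smul_apply, smul_eq_mul, abs_mul, Pi.single_apply]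
    split_ifs
    · norm_num
    · norm_num

end Pool.BD64
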