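import Pool.Agent.H64.BD.Par

/-!
# BODY of degree `n`: the choice of the difference

`sel`: a difference `b`, not small, such that many tuples have many common neighbours among the
pairs with the difference `b`.
-/

set_option autoImplicit false
set_option linter.unusedSectionVars false

namespace Pool.BD64

open Finset Real Matrix
open Pool.Agent.H49.Ent Pool.Agent.H32.Dense Pool.STK Pool.KS6 Pool.SLO Pool.RC21
open Pool.FAD Pool.CLO
open Pool.QC (mat xx QD inc Absb)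

variable {c k n : ℕ}

/-- Powers are large. -/
theorem ex_big {ρ : ℝ} (hρ : 0 < ρ) (K : ℝ) : ∃ X0 : ℕ, ∀ X : ℕ, X0 ≤ X →
    K ≤ (2 : ℝ) ^ (ρ * X) := by
  obtain ⟨m, hm⟩ := pow_unbounded_of_one_lt K (show (1 : ℝ) < 2 by norm_num)
  obtain ⟨X0, hX0⟩ := exists_nat_ge ((m : ℝ) / ρ)
  refine ⟨X0, fun X hX => hm.le.trans ?_⟩
  rw [← Real.rpow_natCast]
  refine Real.rpow_le_rpow_of_exponent_le (by norm_num) ?_
  have h1 : (X0 : ℝ) ≤ X := by exact_mod_cast hX
  rw [div_le_iff₀ hρ] at hX0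
  nlinarith

section sel

variable {D : QD c k} {J : Type} [Fintype J] [DecidableEq J] {j0 : J} {P : (J → D.VV) → ℝ}

open Classical in
/-- The weight of the tuples whose entries are neighbours of the pair. -/
noncomputable def PP (P : (J → D.VV) → ℝ) (t : D.TT × D.TT) : ℝ :=
  ∑ W, if ∀ j, ad2 D t (W j) then P W else 0

open Classical in
/-- The weight of the pairs which are neighbours of the tuple. -/
noncomputable def FF (m : D.TT × D.TT → ℝ) (W : J → D.VV) : ℝ :=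
  ∑ t, if ∀ j, ad2 D t (W j) then m t else 0

theorem PF_comm (m : D.TT × D.TT → ℝ) (P : (J → D.VV) → ℝ) :
    ∑ t, m t * PP P t = ∑ W, P W * FF m W := by
  classical
  unfold PP FF
  simp only [Finset.mul_sum]
  rw [Finset.sum_comm]
  refine Finset.sum_congr rfl fun W _ => Finset.sum_congr rfl fun t _ => ?_
  by_cases h : ∀ j, ad2 D t (W j)
  · rw [if_pos h, if_pos h, mul_comm]
  · rw [if_neg h, if_neg h, mul_zero, mul_zero]

theorem FF_sq (W : J → D.VV) : FF (fun t => D.mu t.1 * D.mu t.2) W = D.cnT W ^ 2 := by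
  classical
  unfold FF QD.cnT
  rw [sq, Finset.sum_mul_sum, Fintype.sum_prod_type]
  refine Finset.sum_congr rfl fun t1 _ => Finset.sum_congr rfl fun t2 _ => ?_
  by_cases h1 : ∀ j, D.adj t1 (W j)
  · by_cases h2 : ∀ j, D.adj t2 (W j)
    · have h3 : ∀ j, ad2 D (t1, t2) (W j) := fun j => ⟨h1 j, h2 j⟩
      rw [if_pos h1, if_pos h2, if_pos h3]
    · have h3 : ¬ ∀ j, ad2 D (t1, t2) (W j) := fun h => h2 fun j => (h j).2
      rw [if_neg h2, if_neg h3, mul_zero]
  · have h3 : ¬ ∀ j, ad2 D (t1, t2) (W j) := fun h => h1 fun j => (h j).1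
    rw [if_neg h1, if_neg h3, zero_mul]

theorem PP_nn (hP : ∀ W, 0 ≤ P W) (t : D.TT × D.TT) : 0 ≤ PP P t := by
  classical
  unfold PP
  refine Finset.sum_nonneg fun W _ => ?_
  split_ifs
  · exact hP W
  · exact le_rfl

open Classical in
/-- Sums over the tuples, by the value at `j0`. -/
theorem sum_j0 (f : (J → D.VV) → ℝ) (j0 : J) : ∑ W, f W =
    ∑ v, ∑ W, (if W j0 = v then f W else 0) := by
  rw [Finset.sum_comm]
  refine Finset.sum_congr rfl fun W _ => ?_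
  rw [Finset.sum_ite_eq Finset.univ (W j0) (fun _ => f W), if_pos (Finset.mem_univ _)]

theorem Wt_le {q : ℝ} (hP : Wt D j0 P q) (hv : ∑ v, D.vp v ≤ 1) : ∑ W, P W ≤ 1 := by
  rw [sum_j0 P j0]
  exact (Finset.sum_le_sum fun v _ => hP.mg v).trans hv

theorem PP_le {q : ℝ} (hP : Wt D j0 P q) (t : D.TT × D.TT) : PP P t ≤ D.cnV ![t.1, t.2] := by
  classical
  rw [cn2]
  unfold PP dgT
  rw [sum_j0 (fun W => if ∀ j, ad2 D t (W j) then P W else 0) j0]
  refine Finset.sum_le_sum fun v _ => ?_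
  by_cases h : ad2 D t v
  · rw [if_pos h]
    refine le_trans (Finset.sum_le_sum fun W _ => ?_) (hP.mg v)
    by_cases h1 : W j0 = v
    · rw [if_pos h1, if_pos h1]
      split_ifs
      · exact le_rfl
      · exact hP.nn W
    · rw [if_neg h1, if_neg h1]
  · rw [if_neg h]
    refine le_of_eq (Finset.sum_eq_zero fun W _ => ?_)
    by_cases h1 : W j0 = v
    · rw [if_pos h1, if_neg fun h2 => h (by rw [← h1]; exact h2 j0)]
    · rw [if_neg h1]

theorem PP_le_one {q : ℝ} (hP : Wt D j0 P q) (hv : ∑ v, D.vp v ≤ 1) (t : D.TT × D.TT) :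
    PP P t ≤ 1 := by
  classical
  refine le_trans ?_ (Wt_le hP hv)
  unfold PP
  refine Finset.sum_le_sum fun W _ => ?_
  split_ifs
  · exact le_rfl
  · exact hP.nn W

/-- **The choice of the difference.** -/
theorem sel {bs : D.VV → Fin (n + 2) → Fin c → ℝ} {X : ℕ} {C q : ℝ} (h : OkG D bs X C q)
    (hC : 1 ≤ C) (hq : 0 < q) (hP : Wt D j0 P q) {al : ℕ} {M0 : ℝ} (hM0 : 1 ≤ M0)
    (hM : 16 * C ^ 2 * M0 ≤ q ^ 3 * 2 ^ X) :
    ∃ b : ℤ, M0 ≤ |(b : ℝ)| ∧ |(b : ℝ)| ≤ ((al : ℝ) + 2) * 2 ^ X ∧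
      q ^ 3 / (4 * C ^ 2 * (al + 2)) ≤ ∑ W, P W * FF (mu2 D X C al b (q ^ 3 / 2)) W := by
  classical
  have hX : (0 : ℝ) < 2 ^ X := by positivity
  have hC0 : 0 < C := by linarith
  have hal : (0 : ℝ) ≤ al := Nat.cast_nonneg al
  obtain ⟨w, hw⟩ : ∃ w : D.TT × D.TT → ℝ, w = fun t => D.mu t.1 * D.mu t.2 := ⟨_, rfl⟩
  have hw0 : ∀ t, 0 ≤ w t := fun t => by
    rw [hw]
    exact mul_nonneg (h.mu_nn _) (h.mu_nn _)
  have hwt : ∑ t, w t ≤ 1 := by
    rw [hw, Fintype.sum_prod_type]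
    simp only
    rw [← Finset.sum_mul_sum]
    have h1 := h.mu_le
    have h2 : 0 ≤ ∑ t, D.mu t := Finset.sum_nonneg fun t _ => h.mu_nn t
    nlinarith
  -- all pairs
  have a1 : q ^ 3 ≤ ∑ t, w t * PP P t := by
    rw [PF_comm w P]
    have h1 : ∀ W, P W * q ^ 2 ≤ P W * FF w W := by
      intro W
      rcases (hP.nn W).eq_or_lt with h0 | h0
      · rw [← h0, zero_mul, zero_mul]
      · refine mul_le_mul_of_nonneg_left ?_ h0.le
        rw [hw, FF_sq]
        exact pow_le_pow_left₀ hq.le (hP.cn W h0) 2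
    refine le_trans ?_ (Finset.sum_le_sum fun W _ => h1 W)
    rw [← Finset.sum_mul]
    have h2 := mul_le_mul_of_nonneg_right hP.tot (by positivity : 0 ≤ q ^ 2)
    linarith
  -- the pairs with few common neighbours
  have a2 : ∑ t, (if D.cnV ![t.1, t.2] < q ^ 3 / 2 then w t * PP P t else 0) ≤ q ^ 3 / 2 := by
    have h1 : ∀ t, (if D.cnV ![t.1, t.2] < q ^ 3 / 2 then w t * PP P t else 0) ≤
        w t * (q ^ 3 / 2) := by
      intro t
      split_ifs with h2
      · exact mul_le_mul_of_nonneg_left ((PP_le hP t).trans h2.le) (hw0 t)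
      · exact mul_nonneg (hw0 t) (by positivity)
    refine (Finset.sum_le_sum fun t _ => h1 t).trans ?_
    rw [← Finset.sum_mul]
    have : 0 < q ^ 3 / 2 := by positivity
    nlinarith
  -- the range of the differences
  obtain ⟨I, hI⟩ : ∃ I : Finset ℤ, I = Finset.Icc (-((al : ℤ) * 2 ^ X)) (2 ^ X) := ⟨_, rfl⟩
  have hIm : ∀ t : D.TT × D.TT, D.tau t.1 - (al : ℤ) * D.tau t.2 ∈ I := by
    intro t
    have r1 := h.tau_r t.1
    have r2 := h.tau_r t.2
    have hal' : (0 : ℤ) ≤ al := Int.natCast_nonneg al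
    have h1 : (al : ℤ) * D.tau t.2 ≤ al * 2 ^ X := mul_le_mul_of_nonneg_left r2.2.le hal'
    have h2 : 0 ≤ (al : ℤ) * D.tau t.2 := mul_nonneg hal' r2.1
    rw [hI, Finset.mem_Icc]
    constructor <;> linarith [r1.1, r1.2]
  have hIc : (I.card : ℝ) ≤ ((al : ℝ) + 2) * 2 ^ X := by
    rw [hI, Int.card_Icc]
    have e1 : (2 : ℤ) ^ X + 1 - -((al : ℤ) * 2 ^ X) = (((al + 1) * 2 ^ X + 1 : ℕ) : ℤ) := by
      push_cast
      ring
    rw [e1, Int.toNat_natCast]
    push_cast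
    have : (1 : ℝ) ≤ 2 ^ X := one_le_pow₀ (by norm_num)
    linarith
  have hIb : ∀ b ∈ I, |(b : ℝ)| ≤ ((al : ℝ) + 2) * 2 ^ X := by
    intro b hb
    rw [hI, Finset.mem_Icc] at hb
    have h1 : (-((al : ℝ) * 2 ^ X)) ≤ b := by exact_mod_cast hb.1
    have h2 : (b : ℝ) ≤ 2 ^ X := by exact_mod_cast hb.2
    rw [abs_le]
    constructor <;> nlinarith
  -- the sum over the differences
  obtain ⟨T, hT⟩ : ∃ T : ℤ → ℝ, T = fun b => ∑ t, mu2 D X C al b (q ^ 3 / 2) t * PP P t :=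
    ⟨_, rfl⟩
  have hT1 : ∀ b, T b ≤ 1 := by
    intro b
    rw [hT]
    have h1 : ∀ t, mu2 D X C al b (q ^ 3 / 2) t * PP P t ≤ mu2 D X C al b (q ^ 3 / 2) t :=
      fun t => mul_le_of_le_one_right (mu2_nn h al b _ t) (PP_le_one hP h.vp_le t)
    refine (Finset.sum_le_sum fun t _ => h1 t).trans ((mu2_tot h hC al b _).trans ?_)
    rw [div_le_one hC0]
    exact hC
  have a3 : q ^ 3 / 2 * (2 ^ X / C ^ 2) ≤ ∑ b ∈ I, T b := by
    have h1 : ∑ b ∈ I, T b = ∑ t, (if D.cnV ![t.1, t.2] < q ^ 3 / 2 then 0 else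
        w t * PP P t) * (2 ^ X / C ^ 2) := by
      rw [hT]
      simp only
      rw [Finset.sum_comm]
      refine Finset.sum_congr rfl fun t _ => ?_
      rw [← Finset.sum_mul]
      have h2 : ∑ b ∈ I, mu2 D X C al b (q ^ 3 / 2) t =
          if D.cnV ![t.1, t.2] < q ^ 3 / 2 then 0 else w t * (2 ^ X / C ^ 2) := by
        rw [Finset.sum_eq_single (D.tau t.1 - (al : ℤ) * D.tau t.2)]
        · unfold mu2
          by_cases h3 : D.cnV ![t.1, t.2] < q ^ 3 / 2
          · rw [if_pos h3, if_neg fun h4 => absurd h4.2 (not_le.2 h3)]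
          · rw [if_neg h3, if_pos ⟨by ring, not_lt.1 h3⟩, hw]
        · intro b _ hb
          unfold mu2
          rw [if_neg fun h4 => hb (by
            have := h4.1
            linarith)]
        · intro h4
          exact absurd (hIm t) h4
      rw [h2]
      split_ifs
      · simp
      · ring
    rw [h1, ← Finset.sum_mul]
    refine mul_le_mul_of_nonneg_right ?_ (by positivity)
    have h2 : ∑ t, w t * PP P t = ∑ t, (if D.cnV ![t.1, t.2] < q ^ 3 / 2 then w t * PP P t else 0) +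
        ∑ t, (if D.cnV ![t.1, t.2] < q ^ 3 / 2 then 0 else w t * PP P t) := by
      rw [← Finset.sum_add_distrib]
      refine Finset.sum_congr rfl fun t _ => ?_
      split_ifs <;> ring
    linarith
  -- the small differences
  by_contra hcon
  push Not at hcon
  have hθ : ∀ b ∈ I, M0 ≤ |(b : ℝ)| → T b < q ^ 3 / (4 * C ^ 2 * (al + 2)) := by
    intro b hb hb0
    have h1 := hcon b hb0 (hIb b hb)
    rw [hT]
    simp only
    rw [PF_comm]
    exact h1
  have a4 : ∑ b ∈ I, T b ≤ (2 * M0 + 1) + ((al : ℝ) + 2) * 2 ^ X *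
      (q ^ 3 / (4 * C ^ 2 * (al + 2))) := by
    have h0 : (0 : ℝ) < q ^ 3 / (4 * C ^ 2 * (al + 2)) := by positivity
    have h1 : ∀ b ∈ I, T b ≤ (if |(b : ℝ)| < M0 then 1 else 0) +
        q ^ 3 / (4 * C ^ 2 * (al + 2)) := by
      intro b hb
      by_cases h2 : |(b : ℝ)| < M0
      · rw [if_pos h2]
        linarith [hT1 b]
      · rw [if_neg h2]
        linarith [hθ b hb (not_lt.1 h2)]
    refine (Finset.sum_le_sum h1).trans ?_
    rw [Finset.sum_add_distrib, Finset.sum_const, nsmul_eq_mul]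
    refine add_le_add ?_ (mul_le_mul_of_nonneg_right hIc h0.le)
    have h2 : ∑ b ∈ I, (if |(b : ℝ)| < M0 then (1 : ℝ) else 0) ≤
        ((Finset.Icc (-⌊M0⌋) ⌊M0⌋).card : ℝ) := by
      rw [Finset.sum_boole]
      have h3 : (I.filter fun b : ℤ => |(b : ℝ)| < M0) ⊆ Finset.Icc (-⌊M0⌋) ⌊M0⌋ := by
        intro b hb
        rw [Finset.mem_filter] at hb
        have h4 := abs_lt.1 hb.2
        rw [Finset.mem_Icc]
        have h5 : b ≤ ⌊M0⌋ := Int.le_floor.2 h4.2.le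
        have h6 : -b ≤ ⌊M0⌋ := Int.le_floor.2 (by push_cast; linarith [h4.1])
        constructor <;> linarith
      exact_mod_cast Finset.card_le_card h3
    refine h2.trans ?_
    rw [Int.card_Icc]
    have h3 : (0 : ℤ) ≤ ⌊M0⌋ := Int.floor_nonneg.2 (by linarith)
    have h4 : (((⌊M0⌋ + 1 - -⌊M0⌋).toNat : ℕ) : ℝ) = ((⌊M0⌋ + 1 - -⌊M0⌋ : ℤ) : ℝ) := by
      have h5 : (((⌊M0⌋ + 1 - -⌊M0⌋).toNat : ℕ) : ℤ) = ⌊M0⌋ + 1 - -⌊M0⌋ :=
        Int.toNat_of_nonneg (by linarith)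
      exact_mod_cast h5
    rw [h4]
    push_cast
    have h5 := Int.floor_le M0
    linarith
  have e2 : ((al : ℝ) + 2) * 2 ^ X * (q ^ 3 / (4 * C ^ 2 * (al + 2))) = q ^ 3 * 2 ^ X / (4 * C ^ 2) := by
    field_simp
  have e3 : q ^ 3 / 2 * (2 ^ X / C ^ 2) = 2 * (q ^ 3 * 2 ^ X / (4 * C ^ 2)) := by
    field_simp
    ring
  rw [e2] at a4
  rw [e3] at a3
  have e4 : 4 * M0 ≤ q ^ 3 * 2 ^ X / (4 * C ^ 2) := by
    rw [le_div_iff₀ (by positivity)]
    nlinarith
  linarith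

end sel

end Pool.BD64
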