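import Pool.Agent.H37.TT.Cnd
import Pool.Agent.H64.QUAD.Res

/-!
# BODY of degree `n`: the picture and the statement

`QHd`: the picture `QH` with a polynomial of degree `n` in the time. `dd` is the divided difference
of `H37/TT/Cnd.lean`. `BodyD`: the height at a fresh time is full in the body of `n + 2` times, given
the context and all times. `BodyDS`: the same with the hypotheses at the samples only.
-/

set_option autoImplicit false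

namespace Pool.BD64

open Finset Real Matrix
open Pool.Agent.H49.Ent Pool.Agent.H32.Dense Pool.STK Pool.KS6 Pool.SLO
open Pool.QT64 (QH)
open Pool.FAD (DF)
open Pool.POT (Tx xv)
open Pool.TT37 (dd)

/-- The picture of degree `n`. -/
structure QHd (c k n : ℕ) where
  Ω : Type
  iΩ : Fintype Ω
  B : Type
  Vt : Type
  Tt : Type
  p : Ω → ℝ
  b : Ω → B
  nu : Ω → Fin c → ℤ
  v : Ω → Vt
  th : Ω → Tt
  tau : Tt → ℤ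
  E : Tt → Fin k → Fin c → ℝ
  y : Vt → Fin k → ℤ
  be : Vt → Fin (n + 1) → Fin c → ℝ
  g : Tt → Vt → Fin c → ℤ
  a0 : Tt → Fin c → ℝ
  b0 : Vt → Fin c → ℝ

attribute [instance] QHd.iΩ

variable {c k n : ℕ}

/-- The line, with the context. -/
def QHd.line (H : QHd c k n) (ω : H.Ω) : (Fin c → ℤ) × (H.Vt × H.B) := (H.nu ω, (H.v ω, H.b ω))

/-- The height at the time. -/
def QHd.hgt (H : QHd c k n) (ω : H.Ω) : Fin c → ℤ := H.nu ω + H.g (H.th ω) (H.v ω)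

/-- The polynomial part of the height, in units of the cell. -/
noncomputable def pol (X : ℕ) (β : Fin (n + 1) → Fin c → ℝ) (t : ℤ) (i : Fin c) : ℝ :=
  ∑ s : Fin (n + 1), β s i * ((t : ℝ) / 2 ^ X) ^ (s : ℕ) * 2 ^ X

/-- The hypotheses. -/
structure QHd.OkN (H : QHd c k n) (X : ℕ) (C d : ℝ) : Prop where
  law : IsLaw H.p
  tau_r : ∀ t, 0 ≤ H.tau t ∧ H.tau t < 2 ^ X
  y_r : ∀ v j, 0 ≤ H.y v j ∧ H.y v j < 2 ^ X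
  E_b : ∀ t u i, |H.E t u i| ≤ C
  be_b : ∀ v s i, |H.be v s i| ≤ C
  hgt_b : ∀ ω i, |(H.hgt ω i : ℝ)| ≤ C * 2 ^ X
  g_eq : ∀ t v i, |(H.g t v i : ℝ) -
    (pol X (H.be v) (H.tau t) i - ∑ u, H.E t u i * H.y v u + H.a0 t i + H.b0 v i)| ≤ C
  h0 : CH H.p H.th H.b - CH H.p H.th H.line ≤ d
  h2 : CH H.p H.hgt (fun ω => (H.th ω, H.b ω)) -
    CH H.p H.hgt (fun ω => (H.v ω, (H.th ω, H.b ω))) ≤ d
  y_f : k * X * Real.log 2 - d ≤ CH H.p (fun ω => H.y (H.v ω)) H.b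
  t_f : X * Real.log 2 - d ≤ CH H.p (fun ω => H.tau (H.th ω)) H.b

/-- The hypotheses, at the samples. -/
structure QHd.OkNS (H : QHd c k n) (X : ℕ) (C d : ℝ) : Prop where
  law : IsLaw H.p
  tau_r : ∀ ω, 0 ≤ H.tau (H.th ω) ∧ H.tau (H.th ω) < 2 ^ X
  y_r : ∀ ω j, 0 ≤ H.y (H.v ω) j ∧ H.y (H.v ω) j < 2 ^ X
  E_b : ∀ ω u i, |H.E (H.th ω) u i| ≤ C
  be_b : ∀ ω s i, |H.be (H.v ω) s i| ≤ C
  hgt_b : ∀ ω i, |(H.hgt ω i : ℝ)| ≤ C * 2 ^ X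
  g_eq : ∀ ω ω' i, |(H.g (H.th ω) (H.v ω') i : ℝ) -
    (pol X (H.be (H.v ω')) (H.tau (H.th ω)) i - ∑ u, H.E (H.th ω) u i * H.y (H.v ω') u +
      H.a0 (H.th ω) i + H.b0 (H.v ω') i)| ≤ C
  h0 : CH H.p H.th H.b - CH H.p H.th H.line ≤ d
  h2 : CH H.p H.hgt (fun ω => (H.th ω, H.b ω)) -
    CH H.p H.hgt (fun ω => (H.v ω, (H.th ω, H.b ω))) ≤ d
  y_f : k * X * Real.log 2 - d ≤ CH H.p (fun ω => H.y (H.v ω)) H.b
  t_f : X * Real.log 2 - d ≤ CH H.p (fun ω => H.tau (H.th ω)) H.b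

/-- **(BODY of degree `n`)** -/
def BodyD (c k n : ℕ) : Prop :=
  ∀ η : ℝ, 0 < η → ∃ io : ℝ, 0 < io ∧ ∀ C : ℝ, 1 ≤ C → ∃ (K1 : ℝ) (X0 : ℕ),
    ∀ (H : QHd c k n) (X : ℕ), X0 ≤ X → H.OkN X C (io * X) →
    ∃ A0 : (Fin (n + 2) → H.Tt) → Matrix (Fin c) (Fin c) ℝ,
      (∀ t, (A0 t).det ≠ 0 ∧ (∀ i j, |A0 t i j| ≤ K1) ∧ (∀ i j, |(A0 t)⁻¹ i j| ≤ 2 ^ X) ∧
        ∀ u b, |((A0 t)⁻¹ *ᵥ dd n H.tau H.E u t) b| ≤ K1) ∧
      DF (tup H.p H.line (n + 2)) (fun _ => Tx c X)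
        (fun w => A0 (fun j => H.th (w j.succ))) (fun w => xv X (H.hgt (w 0)))
        (fun w => (H.b (w 0), (H.th (w 0), fun j : Fin (n + 2) => H.th (w j.succ)))) ≤ η * X

/-- **(BODY of degree `n`, hypotheses at the samples)** -/
def BodyDS (c k n : ℕ) : Prop :=
  ∀ η : ℝ, 0 < η → ∃ io : ℝ, 0 < io ∧ ∀ C : ℝ, 1 ≤ C → ∃ (K1 : ℝ) (X0 : ℕ),
    ∀ (H : QHd c k n) (X : ℕ), X0 ≤ X → H.OkNS X C (io * X) →
    ∃ A0 : (Fin (n + 2) → H.Tt) → Matrix (Fin c) (Fin c) ℝ,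
      (∀ t, (A0 t).det ≠ 0 ∧ (∀ i j, |A0 t i j| ≤ K1) ∧ ∀ i j, |(A0 t)⁻¹ i j| ≤ 2 ^ X) ∧
      (∀ (ω : Fin (n + 2) → H.Ω) (u : Fin k) (b : Fin c),
        |((A0 fun j => H.th (ω j))⁻¹ *ᵥ dd n H.tau H.E u fun j => H.th (ω j)) b| ≤ K1) ∧
      DF (tup H.p H.line (n + 2)) (fun _ => Tx c X)
        (fun w => A0 (fun j => H.th (w j.succ))) (fun w => xv X (H.hgt (w 0)))
        (fun w => (H.b (w 0), (H.th (w 0), fun j : Fin (n + 2) => H.th (w j.succ)))) ≤ η * X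

/-! ### The graph of degree `n` -/

open Pool.QC (QD Absb mat)

/-- The hypotheses on a graph of degree `n`; the field `be` of `D` is replaced by `bs`. -/
structure OkG (D : QD c k) (bs : D.VV → Fin (n + 1) → Fin c → ℝ) (X : ℕ) (C q : ℝ) : Prop where
  mu_nn : ∀ t, 0 ≤ D.mu t
  mu_le : ∑ t, D.mu t ≤ 1
  vp_nn : ∀ v, 0 ≤ D.vp v
  vp_le : ∑ v, D.vp v ≤ 1
  mu_sp : ∀ a : ℤ, (∑ t, open Classical in (if D.tau t = a then D.mu t else 0)) ≤ C / 2 ^ X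
  vp_sp : ∀ a : Fin k → ℤ,
    (∑ v, open Classical in (if D.y v = a then D.vp v else 0)) ≤ C / 2 ^ (k * X)
  tau_r : ∀ t, 0 ≤ D.tau t ∧ D.tau t < 2 ^ X
  y_r : ∀ v j, 0 ≤ D.y v j ∧ D.y v j < 2 ^ X
  E_b : ∀ t u i, |D.E t u i| ≤ C
  bs_b : ∀ v s i, |bs v s i| ≤ C
  deg_T : ∀ t, q ≤ D.cnV (fun _ : Unit => t)
  deg_V : ∀ v, q ≤ D.cnT (fun _ : Unit => v)
  g_eq : ∀ t v, D.adj t v → ∀ i, |(D.g t v i : ℝ) -
    (pol X (bs v) (D.tau t) i - ∑ u, D.E t u i * D.y v u + D.a0 t i + D.b0 v i)| ≤ C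
  g_A : ∀ t v, D.adj t v → D.g t v - D.ref t ∈ D.A

/-- **(FULL of degree `n`)** In a graph of degree `n`, `R` is full in every box of `(n + 2)`-point
vectors of legal times and small axes. -/
def FullD (c k n : ℕ) : Prop :=
  ∀ C η : ℝ, 1 ≤ C → 0 < η → ∃ (ka ε0 : ℝ) (X0 : ℕ), 0 < ka ∧ 0 < ε0 ∧
  ∀ (D : QD c k) (bs : D.VV → Fin (n + 1) → Fin c → ℝ) (X : ℕ), X0 ≤ X →
    OkG D bs X C ((2 : ℝ) ^ (-(ka * X))) →
  ∀ (Ω : Type) (_ : Fintype Ω) (p : Ω → ℝ) (R : Ω → Fin c → ℤ), IsLaw p →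
    Absb p R D.A (ε0 * X) →
  ∀ s : Fin (n + 2) → D.TT, (2 : ℝ) ^ (-(ka * X)) ≤ D.cnV s →
  ∀ δ : Fin c → Fin c → ℝ,
    (∀ b, (∃ u, δ b = dd n D.tau D.E u s) ∨ ∃ i, δ b = Pi.single i ((2 : ℝ) ^ X)⁻¹) →
    (mat δ).det ≠ 0 → (∀ i j, |((mat δ)⁻¹) i j| ≤ 2 ^ X) →
    Pool.CLO.Ph p (fun ω i => (R ω i : ℝ) / 2 ^ X) (mat δ) ≤
      Pool.CLO.Ph p (fun ω i => (R ω i : ℝ) / 2 ^ X)
        (((2 : ℝ) ^ X)⁻¹ • (1 : Matrix (Fin c) (Fin c) ℝ)) + η * X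

end Pool.BD64
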