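import Pool.Agent.H64.BD.Shf

/-!
# BODY of degree `n`: the graph of the pairs of times

`par`: the times are the pairs `t` with `tau t.1 = al * tau t.2 + b`, the heights are
`g t.1 - al ^ (n + 1) g t.2`. It is a graph of degree `n` if the given graph has degree `n + 1`.
-/

set_option autoImplicit false
set_option linter.unusedSectionVars false

namespace Pool.BD64

open Finset Real Matrix
open Pool.Agent.H49.Ent Pool.Agent.H32.Dense Pool.STK Pool.KS6 Pool.SLO Pool.RC21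
open Pool.FAD Pool.CLO
open Pool.QC (mat xx QD inc Absb)

variable {c k n : ℕ}

/-- The pairs of times. -/
def Cb (D : QD c k) (al : ℕ) (b : ℤ) (q2 : ℝ) (t : D.TT × D.TT) : Prop :=
  D.tau t.1 = (al : ℤ) * D.tau t.2 + b ∧ q2 ≤ D.cnV ![t.1, t.2]

open Classical in
/-- The weight of a pair. -/
noncomputable def mu2 (D : QD c k) (X : ℕ) (C : ℝ) (al : ℕ) (b : ℤ) (q2 : ℝ)
    (t : D.TT × D.TT) : ℝ :=
  if Cb D al b q2 t then D.mu t.1 * D.mu t.2 * (2 ^ X / C ^ 2) else 0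

/-- Adjacency of a pair. -/
def ad2 (D : QD c k) (t : D.TT × D.TT) (v : D.VV) : Prop := D.adj t.1 v ∧ D.adj t.2 v

/-- **The graph of the pairs.** -/
noncomputable def par (D : QD c k) (X : ℕ) (C : ℝ) (n al : ℕ) (b : ℤ) (q2 : ℝ)
    (A : Finset (D.TT × D.TT)) (V : Finset D.VV) : QD c k where
  TT := {t // t ∈ A}
  VV := {v // v ∈ V}
  iT := inferInstance
  iV := inferInstance
  mu := fun t => mu2 D X C al b q2 t.1
  vp := fun v => D.vp v.1
  tau := fun t => D.tau t.1.2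
  y := fun v => D.y v.1
  E := fun t u i => D.E t.1.1 u i - (al : ℝ) ^ (n + 1) * D.E t.1.2 u i
  be := fun _ _ => 0
  g := fun t v => D.g t.1.1 v.1 - (al ^ (n + 1) : ℕ) • D.g t.1.2 v.1
  a0 := fun t i => D.a0 t.1.1 i - (al : ℝ) ^ (n + 1) * D.a0 t.1.2 i
  b0 := fun v i => (1 - (al : ℝ) ^ (n + 1)) * D.b0 v.1 i
  ref := fun t => D.ref t.1.1 - (al ^ (n + 1) : ℕ) • D.ref t.1.2
  adj := fun t v => ad2 D t.1 v.1
  A := {x | ∃ a ∈ D.A, ∃ a' ∈ D.A, x = a - (al ^ (n + 1) : ℕ) • a'}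

section sums

variable {D : QD c k} {bs : D.VV → Fin (n + 2) → Fin c → ℝ} {X : ℕ} {C q : ℝ}

theorem mu2_nn (h : OkG D bs X C q) (al : ℕ) (b : ℤ) (q2 : ℝ) (t : D.TT × D.TT) :
    0 ≤ mu2 D X C al b q2 t := by
  classical
  unfold mu2
  split_ifs
  · have h1 := h.mu_nn t.1
    have h2 := h.mu_nn t.2
    positivity
  · exact le_rfl

/-- Sums over the pairs. -/
theorem pair_sum (h : OkG D bs X C q) (hC : 0 < C) (al : ℕ) (b : ℤ) (q2 : ℝ)
    (f : D.TT → ℝ) (hf : ∀ t, 0 ≤ f t) :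
    ∑ t : D.TT × D.TT, mu2 D X C al b q2 t * f t.2 ≤ 1 / C * ∑ t, D.mu t * f t := by
  classical
  rw [Fintype.sum_prod_type_right, Finset.mul_sum]
  refine Finset.sum_le_sum fun t2 _ => ?_
  have hm2 := h.mu_nn t2
  have h1 : ∀ t1 : D.TT, mu2 D X C al b q2 (t1, t2) * f (t1, t2).2 ≤
      (if D.tau t1 = (al : ℤ) * D.tau t2 + b then D.mu t1 else 0) *
        (D.mu t2 * (2 ^ X / C ^ 2) * f t2) := by
    intro t1
    have hm1 := h.mu_nn t1
    have hft := hf t2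
    unfold mu2
    by_cases h2 : Cb D al b q2 (t1, t2)
    · rw [if_pos h2, if_pos h2.1]
      exact le_of_eq (by ring)
    · rw [if_neg h2, zero_mul]
      split_ifs
      · positivity
      · simp
  refine (Finset.sum_le_sum fun t1 _ => h1 t1).trans ?_
  rw [← Finset.sum_mul]
  have h2 := h.mu_sp ((al : ℤ) * D.tau t2 + b)
  have h3 : 0 ≤ D.mu t2 * (2 ^ X / C ^ 2) * f t2 := by
    have hft := hf t2
    positivity
  refine (mul_le_mul_of_nonneg_right h2 h3).trans (le_of_eq ?_)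
  have hX : (0 : ℝ) < 2 ^ X := by positivity
  field_simp

theorem mu2_tot (h : OkG D bs X C q) (hC : 1 ≤ C) (al : ℕ) (b : ℤ) (q2 : ℝ) :
    ∑ t : D.TT × D.TT, mu2 D X C al b q2 t ≤ 1 / C := by
  have hC0 : 0 < C := by linarith
  have h1 := pair_sum h hC0 al b q2 (fun _ => 1) (fun _ => zero_le_one)
  simp only [mul_one] at h1
  have h2 := mul_le_mul_of_nonneg_left h.mu_le (by positivity : 0 ≤ 1 / C)
  linarith

theorem cn2 (D : QD c k) (t : D.TT × D.TT) :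
    D.cnV ![t.1, t.2] = dgT (ad2 D) D.vp Finset.univ t := by
  classical
  unfold QD.cnV dgT
  refine Finset.sum_congr rfl fun v _ => ?_
  have h1 : (∀ j : Fin 2, D.adj (![t.1, t.2] j) v) ↔ ad2 D t v := by
    rw [Fin.forall_fin_two]
    rfl
  by_cases h2 : ad2 D t v
  · exact (if_pos (h1.2 h2)).trans (if_pos h2).symm
  · exact (if_neg fun h3 => h2 (h1.1 h3)).trans (if_neg h2).symm

end sums

/-- **The graph of the pairs is a graph of degree `n`.** -/
theorem par_ok {D : QD c k} {bs : D.VV → Fin (n + 2) → Fin c → ℝ} {X : ℕ} {C q : ℝ}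
    (h : OkG D bs X C q) (hC : 1 ≤ C) {al : ℕ} (hal : 1 ≤ al) {b : ℤ}
    (hb : |(b : ℝ)| ≤ ((al : ℝ) + 2) * 2 ^ X) {q2 q' : ℝ} {A : Finset (D.TT × D.TT)}
    {V : Finset D.VV}
    (hA : ∀ t ∈ A, 0 < mu2 D X C al b q2 t ∧ q' ≤ dgT (ad2 D) D.vp V t)
    (hV : ∀ v ∈ V, q' ≤ dgV (ad2 D) (mu2 D X C al b q2) A v) :
    OkG (par D X C n al b q2 A V) (fun v => shf al ((b : ℝ) / 2 ^ X) (bs v.1)) X (Ksh n al * C)
      q' := by
  classical
  have hC0 : 0 < C := by linarith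
  have hX : (0 : ℝ) < 2 ^ X := by positivity
  have hK := Ksh_ge n al
  have hal0 : (0 : ℝ) ≤ (al : ℝ) ^ (n + 1) := by positivity
  have hK1 : 1 ≤ Ksh n al := by linarith
  have hKC : 1 ≤ Ksh n al * C := one_le_mul_of_one_le_of_one_le hK1 hC
  have hCb : ∀ t ∈ A, Cb D al b q2 t := by
    intro t ht
    by_contra hcon
    have h1 := (hA t ht).1
    unfold mu2 at h1
    rw [if_neg hcon] at h1
    exact lt_irrefl _ h1
  have hsT : ∀ f : D.TT × D.TT → ℝ, (∀ t, 0 ≤ f t) →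
      ∑ t : {t // t ∈ A}, f t.1 ≤ ∑ t, f t := fun f hf => by
    rw [Finset.sum_coe_sort A f]
    exact Finset.sum_le_sum_of_subset_of_nonneg (Finset.subset_univ _) fun t _ _ => hf t
  have hsV : ∀ f : D.VV → ℝ, (∀ t, 0 ≤ f t) →
      ∑ t : {t // t ∈ V}, f t.1 ≤ ∑ t, f t := fun f hf => by
    rw [Finset.sum_coe_sort V f]
    exact Finset.sum_le_sum_of_subset_of_nonneg (Finset.subset_univ _) fun t _ _ => hf t
  have hN : (((al ^ (n + 1) : ℕ)) : ℝ) = (al : ℝ) ^ (n + 1) := by push_cast; rfl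
  refine ⟨fun t => mu2_nn h al b q2 t.1, ?_, fun v => h.vp_nn v.1, ?_, ?_, ?_,
    fun t => h.tau_r t.1.2, fun v => h.y_r v.1, ?_, ?_, ?_, ?_, ?_, ?_⟩
  · have h1 := (hsT _ (mu2_nn h al b q2)).trans (mu2_tot h hC al b q2)
    refine h1.trans ?_
    rw [div_le_one hC0]
    exact hC
  · exact (hsV _ h.vp_nn).trans h.vp_le
  · intro a
    have h1 : (∑ t : {t // t ∈ A}, if D.tau t.1.2 = a then mu2 D X C al b q2 t.1 else 0) ≤
        ∑ t : D.TT × D.TT, mu2 D X C al b q2 t * (if D.tau t.2 = a then 1 else 0) := by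
      refine le_trans (Finset.sum_le_sum fun t _ => ?_)
        (hsT (fun t => mu2 D X C al b q2 t * (if D.tau t.2 = a then 1 else 0)) fun t => ?_)
      · split_ifs
        · rw [mul_one]
        · rw [mul_zero]
      · have := mu2_nn h al b q2 t
        split_ifs <;> simp [this]
    have h2 := pair_sum h hC0 al b q2 (fun t => if D.tau t = a then 1 else 0) (fun t => by
      split_ifs <;> norm_num)
    have h3 := h.mu_sp a
    have h4 : ∑ t, D.mu t * (if D.tau t = a then (1 : ℝ) else 0) =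
        ∑ t, if D.tau t = a then D.mu t else 0 := by
      refine Finset.sum_congr rfl fun t _ => ?_
      split_ifs <;> simp
    rw [h4] at h2
    have h5 : 1 / C * ∑ t, (if D.tau t = a then D.mu t else 0) ≤ 1 / C * (C / 2 ^ X) :=
      mul_le_mul_of_nonneg_left h3 (by positivity)
    have h6 : 1 / C * (C / 2 ^ X) = 1 / 2 ^ X := by field_simp
    have h7 : 1 / 2 ^ X ≤ Ksh n al * C / 2 ^ X := div_le_div_of_nonneg_right hKC hX.le
    exact h1.trans (h2.trans (h5.trans (h6.le.trans h7)))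
  · intro a
    have h1 : (∑ v : {v // v ∈ V}, if D.y v.1 = a then D.vp v.1 else 0) ≤
        ∑ v, if D.y v = a then D.vp v else 0 :=
      hsV (fun v => if D.y v = a then D.vp v else 0) fun v => by
        split_ifs
        · exact h.vp_nn v
        · exact le_rfl
    have h2 : C / 2 ^ (k * X) ≤ Ksh n al * C / 2 ^ (k * X) := by
      refine div_le_div_of_nonneg_right ?_ (by positivity)
      nlinarith
    exact h1.trans ((h.vp_sp a).trans h2)
  · intro t u i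
    show |D.E t.1.1 u i - (al : ℝ) ^ (n + 1) * D.E t.1.2 u i| ≤ _
    refine (abs_sub _ _).trans ?_
    rw [abs_mul, abs_of_nonneg hal0]
    have h1 := h.E_b t.1.1 u i
    have h2 := mul_le_mul_of_nonneg_left (h.E_b t.1.2 u i) hal0
    nlinarith
  · intro v s i
    refine shf_le hal hC0.le ?_ (h.bs_b v.1) s i
    rw [abs_div, abs_of_pos hX, div_le_iff₀ hX]
    exact hb
  · intro t
    refine ((hA t.1 t.2).2).trans (le_of_eq ?_)
    unfold dgT QD.cnV
    rw [← Finset.sum_coe_sort V]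
    refine Finset.sum_congr rfl fun v _ => ?_
    by_cases h1 : ad2 D t.1 v.1
    · exact (if_pos h1).trans (if_pos fun _ => h1).symm
    · exact (if_neg h1).trans (if_neg fun h2 => h1 (h2 ())).symm
  · intro v
    refine (hV v.1 v.2).trans (le_of_eq ?_)
    unfold dgV QD.cnT
    rw [← Finset.sum_coe_sort A]
    refine Finset.sum_congr rfl fun t _ => ?_
    by_cases h1 : ad2 D t.1 v.1
    · exact (if_pos h1).trans (if_pos fun _ => h1).symm
    · exact (if_neg h1).trans (if_neg fun h2 => h1 (h2 ())).symm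
  · intro t v hv i
    have h1 := h.g_eq t.1.1 v.1 hv.1 i
    have h2 := h.g_eq t.1.2 v.1 hv.2 i
    have h3 := pol_shf X al (bs v.1) (D.tau t.1.2) b i
    rw [← (hCb t.1 t.2).1] at h3
    show |(((D.g t.1.1 v.1 - (al ^ (n + 1) : ℕ) • D.g t.1.2 v.1) i : ℤ) : ℝ) -
      (pol X (shf al ((b : ℝ) / 2 ^ X) (bs v.1)) (D.tau t.1.2) i -
        ∑ u, (D.E t.1.1 u i - (al : ℝ) ^ (n + 1) * D.E t.1.2 u i) * D.y v.1 u +
        (D.a0 t.1.1 i - (al : ℝ) ^ (n + 1) * D.a0 t.1.2 i) +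
        (1 - (al : ℝ) ^ (n + 1)) * D.b0 v.1 i)| ≤ _
    rw [← h3]
    have e1 : ∑ u, (D.E t.1.1 u i - (al : ℝ) ^ (n + 1) * D.E t.1.2 u i) * D.y v.1 u =
        ∑ u, D.E t.1.1 u i * D.y v.1 u - (al : ℝ) ^ (n + 1) * ∑ u, D.E t.1.2 u i * D.y v.1 u := by
      rw [Finset.mul_sum, ← Finset.sum_sub_distrib]
      exact Finset.sum_congr rfl fun u _ => by ring
    have e2 : (((D.g t.1.1 v.1 - (al ^ (n + 1) : ℕ) • D.g t.1.2 v.1) i : ℤ) : ℝ) =
        D.g t.1.1 v.1 i - (al : ℝ) ^ (n + 1) * D.g t.1.2 v.1 i := by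
      simp only [Pi.sub_apply, Pi.smul_apply]
      rw [nsmul_eq_mul]
      push_cast
      ring
    rw [e1, e2]
    obtain ⟨r1, hr1⟩ : ∃ r : ℝ, r = (D.g t.1.1 v.1 i : ℝ) - (pol X (bs v.1) (D.tau t.1.1) i -
      ∑ u, D.E t.1.1 u i * D.y v.1 u + D.a0 t.1.1 i + D.b0 v.1 i) := ⟨_, rfl⟩
    obtain ⟨r2, hr2⟩ : ∃ r : ℝ, r = (D.g t.1.2 v.1 i : ℝ) - (pol X (bs v.1) (D.tau t.1.2) i -
      ∑ u, D.E t.1.2 u i * D.y v.1 u + D.a0 t.1.2 i + D.b0 v.1 i) := ⟨_, rfl⟩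
    rw [← hr1] at h1
    rw [← hr2] at h2
    have e3 : (D.g t.1.1 v.1 i : ℝ) - (al : ℝ) ^ (n + 1) * D.g t.1.2 v.1 i -
        (pol X (bs v.1) (D.tau t.1.1) i - (al : ℝ) ^ (n + 1) * pol X (bs v.1) (D.tau t.1.2) i -
        (∑ u, D.E t.1.1 u i * D.y v.1 u - (al : ℝ) ^ (n + 1) * ∑ u, D.E t.1.2 u i * D.y v.1 u) +
        (D.a0 t.1.1 i - (al : ℝ) ^ (n + 1) * D.a0 t.1.2 i) +
        (1 - (al : ℝ) ^ (n + 1)) * D.b0 v.1 i) = r1 - (al : ℝ) ^ (n + 1) * r2 := by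
      rw [hr1, hr2]
      ring
    rw [e3]
    refine (abs_sub _ _).trans ?_
    rw [abs_mul, abs_of_nonneg hal0]
    have h4 := mul_le_mul_of_nonneg_left h2 hal0
    nlinarith
  · intro t v hv
    refine ⟨D.g t.1.1 v.1 - D.ref t.1.1, h.g_A _ _ hv.1, D.g t.1.2 v.1 - D.ref t.1.2,
      h.g_A _ _ hv.2, ?_⟩
    show (D.g t.1.1 v.1 - (al ^ (n + 1) : ℕ) • D.g t.1.2 v.1) -
      (D.ref t.1.1 - (al ^ (n + 1) : ℕ) • D.ref t.1.2) = _
    rw [smul_sub]
    abel

end Pool.BD64
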