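import Mathlib

/-!
# Pruning of a bipartite graph with weights

`prune`: if all times have a large degree, a set of times of small weight can be removed such that
the remaining times and the labels of degree at least `α` have large degrees.
-/

set_option autoImplicit false
set_option linter.unusedSectionVars false

namespace Pool.BD64

open Finset

variable {T V : Type} [Fintype T] [Fintype V] (adj : T → V → Prop) (mu : T → ℝ) (vp : V → ℝ)

open Classical in
/-- The degree of a label. -/
noncomputable def dgV (A : Finset T) (v : V) : ℝ := ∑ t ∈ A, if adj t v then mu t else 0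

open Classical in
/-- The degree of a time. -/
noncomputable def dgT (B : Finset V) (t : T) : ℝ := ∑ v ∈ B, if adj t v then vp v else 0

theorem dg_comm (A : Finset T) (B : Finset V) :
    ∑ v ∈ B, vp v * dgV adj mu A v = ∑ t ∈ A, mu t * dgT adj vp B t := by
  classical
  unfold dgV dgT
  simp only [Finset.mul_sum]
  rw [Finset.sum_comm]
  refine Finset.sum_congr rfl fun t _ => Finset.sum_congr rfl fun v _ => ?_
  by_cases h : adj t v
  · rw [if_pos h, if_pos h, mul_comm]
  · rw [if_neg h, if_neg h, mul_zero, mul_zero]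

variable {adj mu vp}

theorem dgV_mono (hmu : ∀ t, 0 ≤ mu t) {A A' : Finset T} (h : A ⊆ A') (v : V) :
    dgV adj mu A v ≤ dgV adj mu A' v := by
  classical
  unfold dgV
  refine Finset.sum_le_sum_of_subset_of_nonneg h fun t _ _ => ?_
  split_ifs
  · exact hmu t
  · exact le_rfl

theorem dgT_mono (hvp : ∀ v, 0 ≤ vp v) {B B' : Finset V} (h : B ⊆ B') (t : T) :
    dgT adj vp B t ≤ dgT adj vp B' t := by
  classical
  unfold dgT
  refine Finset.sum_le_sum_of_subset_of_nonneg h fun t _ _ => ?_
  split_ifs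
  · exact hvp t
  · exact le_rfl

open Classical in
/-- **Pruning.** -/
theorem prune (hmu : ∀ t, 0 ≤ mu t) (hvp : ∀ v, 0 ≤ vp v) (hv1 : ∑ v, vp v ≤ 1) {α β q : ℝ}
    (hα : 0 ≤ α) (hdeg : ∀ t, 0 < mu t → q ≤ dgT adj vp Finset.univ t) :
    ∃ (A : Finset T) (B : Finset V), (∀ t ∈ A, 0 < mu t ∧ β ≤ dgT adj vp B t) ∧
      (∀ v, v ∈ B ↔ α ≤ dgV adj mu A v) ∧ (q - β) * ∑ t ∈ Finset.univ \ A, mu t ≤ α := by
  classical
  obtain ⟨G, hG⟩ : ∃ G : Finset T → ℝ, G = fun A =>
      ∑ v, vp v * max 0 (dgV adj mu A v - α) - β * ∑ t ∈ A, mu t := ⟨_, rfl⟩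
  obtain ⟨A, hA⟩ := Finite.exists_max G
  obtain ⟨B, hB⟩ : ∃ B : Finset V, B = Finset.univ.filter fun v => α ≤ dgV adj mu A v := ⟨_, rfl⟩
  have hBm : ∀ v, v ∈ B ↔ α ≤ dgV adj mu A v := by
    intro v
    rw [hB, Finset.mem_filter]
    exact ⟨fun h => h.2, fun h => ⟨Finset.mem_univ v, h⟩⟩
  -- a lower bound
  have low : ∀ (A' : Finset T) (B' : Finset V),
      ∑ v ∈ B', vp v * (dgV adj mu A' v - α) - β * ∑ t ∈ A', mu t ≤ G A' := by
    intro A' B'
    rw [hG]
    simp only
    have h1 : ∑ v ∈ B', vp v * (dgV adj mu A' v - α) ≤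
        ∑ v, vp v * max 0 (dgV adj mu A' v - α) := by
      refine (Finset.sum_le_sum fun v _ => mul_le_mul_of_nonneg_left
        (le_max_right 0 (dgV adj mu A' v - α)) (hvp v)).trans ?_
      exact Finset.sum_le_sum_of_subset_of_nonneg (Finset.subset_univ _) fun v _ _ =>
        mul_nonneg (hvp v) (le_max_left _ _)
    linarith
  have eqA : G A = ∑ v ∈ B, vp v * (dgV adj mu A v - α) - β * ∑ t ∈ A, mu t := by
    rw [hG]
    simp only
    congr 1
    rw [hB, Finset.sum_filter]
    refine Finset.sum_congr rfl fun v _ => ?_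
    by_cases h : α ≤ dgV adj mu A v
    · rw [if_pos h, max_eq_right (by linarith)]
    · rw [if_neg h, max_eq_left (by linarith [not_le.1 h]), mul_zero]
  have exp : ∀ (A' : Finset T) (B' : Finset V), ∑ v ∈ B', vp v * (dgV adj mu A' v - α) =
      ∑ t ∈ A', mu t * dgT adj vp B' t - α * ∑ v ∈ B', vp v := by
    intro A' B'
    rw [← dg_comm adj mu vp A' B', Finset.mul_sum, ← Finset.sum_sub_distrib]
    exact Finset.sum_congr rfl fun v _ => by ring
  -- the times of positive weight in `A`
  have hpos : ∀ t ∈ A, 0 < mu t → β ≤ dgT adj vp B t := by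
    intro t ht hmt
    by_contra hcon
    push Not at hcon
    have h1 := (low (A.erase t) B).trans (hA (A.erase t))
    rw [eqA, exp, exp] at h1
    have h2 := Finset.add_sum_erase A (fun t => mu t * dgT adj vp B t) ht
    have h3 := Finset.add_sum_erase A mu ht
    have h4 : mu t * dgT adj vp B t < mu t * β := mul_lt_mul_of_pos_left hcon hmt
    rw [← h2, ← h3] at h1
    linarith
  -- the removed times
  have hrem : (q - β) * ∑ t ∈ Finset.univ \ A, mu t ≤ α := by
    have h1 := (low Finset.univ Finset.univ).trans (hA Finset.univ)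
    rw [eqA, exp, exp] at h1
    have h2 : ∑ t ∈ A, mu t * dgT adj vp B t ≤ ∑ t ∈ A, mu t * dgT adj vp Finset.univ t :=
      Finset.sum_le_sum fun t _ => mul_le_mul_of_nonneg_left
        (dgT_mono hvp (Finset.subset_univ B) t) (hmu t)
    have h3 := Finset.sum_sdiff (f := fun t => mu t * dgT adj vp Finset.univ t)
      (Finset.subset_univ A)
    have h4 := Finset.sum_sdiff (f := mu) (Finset.subset_univ A)
    have h5 : ∑ t ∈ Finset.univ \ A, mu t * q ≤
        ∑ t ∈ Finset.univ \ A, mu t * dgT adj vp Finset.univ t :=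
      Finset.sum_le_sum fun t _ => by
        rcases (hmu t).eq_or_lt with h0 | h0
        · rw [← h0, zero_mul, zero_mul]
        · exact mul_le_mul_of_nonneg_left (hdeg t h0) h0.le
    rw [← Finset.sum_mul] at h5
    have h6 : α * ∑ v, vp v ≤ α := by nlinarith
    have h7 : 0 ≤ α * ∑ v ∈ B, vp v :=
      mul_nonneg hα (Finset.sum_nonneg fun v _ => hvp v)
    rw [← h3, ← h4] at h1
    linarith
  -- without the times of weight zero
  obtain ⟨A', hA'⟩ : ∃ A' : Finset T, A' = A.filter fun t => 0 < mu t ∧ β ≤ dgT adj vp B t :=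
    ⟨_, rfl⟩
  have hAA : ∀ t, t ∈ A' ↔ t ∈ A ∧ 0 < mu t ∧ β ≤ dgT adj vp B t := fun t => by
    rw [hA', Finset.mem_filter]
  have hz : ∀ t, t ∈ A → t ∉ A' → mu t = 0 := by
    intro t h1 h2
    by_contra h3
    have h4 : 0 < mu t := lt_of_le_of_ne (hmu t) (Ne.symm h3)
    exact h2 ((hAA t).2 ⟨h1, h4, hpos t h1 h4⟩)
  have hsub : A' ⊆ A := by
    rw [hA']
    exact Finset.filter_subset _ _
  have hdg : ∀ v, dgV adj mu A' v = dgV adj mu A v := by
    intro v
    unfold dgV
    refine Finset.sum_subset hsub fun t h1 h2 => ?_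
    rw [hz t h1 h2, ite_self]
  refine ⟨A', B, fun t ht => ((hAA t).1 ht).2, fun v => ?_, ?_⟩
  · rw [hBm, hdg]
  · have h1 : ∑ t ∈ Finset.univ \ A', mu t = ∑ t ∈ Finset.univ \ A, mu t := by
      have h2 := Finset.sum_sdiff (f := mu) (Finset.subset_univ A')
      have h3 := Finset.sum_sdiff (f := mu) (Finset.subset_univ A)
      have h4 : ∑ t ∈ A', mu t = ∑ t ∈ A, mu t :=
        Finset.sum_subset hsub fun t h1 h2 => hz t h1 h2
      linarith
    rw [h1]
    exact hrem

end Pool.BD64
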