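import Pool.Agent.H64.BD.Kn
import Pool.Agent.H64.BD.Prune

/-!
# BODY of degree `n`: pairs of times

`shf al x β`: the coefficients of `F (al z + b) - al ^ (n + 1) F z`, of degree `n`, where `F` has
the coefficients `β`. `absb_two`: absorption of differences.
-/

set_option autoImplicit false
set_option linter.unusedSectionVars false

namespace Pool.BD64

open Finset Real Matrix
open Pool.Agent.H49.Ent Pool.Agent.H32.Dense Pool.STK Pool.KS6 Pool.SLO Pool.RC21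
open Pool.FAD Pool.CLO
open Pool.QC (mat xx QD inc Absb)

variable {c k n : ℕ}

/-- The coefficients of `F (al z + b) - al ^ (n + 1) F z`, `x = b / 2 ^ X`. -/
noncomputable def shf (al : ℕ) (x : ℝ) (β : Fin (n + 2) → Fin c → ℝ) (s : Fin (n + 1))
    (i : Fin c) : ℝ :=
  ∑ s' : Fin (n + 2), ((Nat.choose s' s : ℕ) : ℝ) * (al : ℝ) ^ (s : ℕ) *
    x ^ ((s' : ℕ) - (s : ℕ)) * β s' i - (al : ℝ) ^ (n + 1) * β s.castSucc i

theorem pow_exp (n : ℕ) (s' : Fin (n + 2)) (a x : ℝ) : (a + x) ^ (s' : ℕ) =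
    ∑ m : Fin (n + 2), ((Nat.choose s' m : ℕ) : ℝ) * a ^ (m : ℕ) * x ^ ((s' : ℕ) - (m : ℕ)) := by
  rw [add_pow]
  have h1 : ∑ m : Fin (n + 2), ((Nat.choose s' m : ℕ) : ℝ) * a ^ (m : ℕ) *
      x ^ ((s' : ℕ) - (m : ℕ)) = ∑ m ∈ Finset.range (n + 2),
      ((Nat.choose s' m : ℕ) : ℝ) * a ^ m * x ^ ((s' : ℕ) - m) :=
    Fin.sum_univ_eq_sum_range (fun m => ((Nat.choose s' m : ℕ) : ℝ) * a ^ m *
      x ^ ((s' : ℕ) - m)) (n + 2)
  rw [h1]
  have h2 : Finset.range ((s' : ℕ) + 1) ⊆ Finset.range (n + 2) := by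
    intro m hm
    rw [Finset.mem_range] at hm ⊢
    have := s'.2
    omega
  rw [← Finset.sum_subset h2]
  · exact Finset.sum_congr rfl fun m _ => by ring
  · intro m _ hm
    rw [Finset.mem_range, not_lt] at hm
    rw [Nat.choose_eq_zero_of_lt (by omega)]
    simp

/-- **The pair of times lowers the degree.** -/
theorem pol_shf (X al : ℕ) (β : Fin (n + 2) → Fin c → ℝ) (t b : ℤ) (i : Fin c) :
    pol X β ((al : ℤ) * t + b) i - (al : ℝ) ^ (n + 1) * pol X β t i =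
      pol X (shf al ((b : ℝ) / 2 ^ X) β) t i := by
  have hX : (0 : ℝ) < 2 ^ X := by positivity
  obtain ⟨w, hw⟩ : ∃ w : ℝ, w = (t : ℝ) / 2 ^ X := ⟨_, rfl⟩
  obtain ⟨x, hx⟩ : ∃ x : ℝ, x = (b : ℝ) / 2 ^ X := ⟨_, rfl⟩
  have e1 : ((((al : ℤ) * t + b : ℤ) : ℝ)) / 2 ^ X = (al : ℝ) * w + x := by
    rw [hw, hx]
    push_cast
    ring
  unfold pol
  rw [e1, ← hw, ← hx]
  have e2 : ∑ s' : Fin (n + 2), β s' i * ((al : ℝ) * w + x) ^ (s' : ℕ) * 2 ^ X =
      ∑ m : Fin (n + 2), (∑ s' : Fin (n + 2), ((Nat.choose s' m : ℕ) : ℝ) *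
        (al : ℝ) ^ (m : ℕ) * x ^ ((s' : ℕ) - (m : ℕ)) * β s' i) * w ^ (m : ℕ) * 2 ^ X := by
    have e3 : ∀ s' : Fin (n + 2), β s' i * ((al : ℝ) * w + x) ^ (s' : ℕ) * 2 ^ X =
        ∑ m : Fin (n + 2), ((Nat.choose s' m : ℕ) : ℝ) * (al : ℝ) ^ (m : ℕ) *
          x ^ ((s' : ℕ) - (m : ℕ)) * β s' i * w ^ (m : ℕ) * 2 ^ X := by
      intro s'
      rw [pow_exp n s' ((al : ℝ) * w) x, Finset.mul_sum, Finset.sum_mul]
      refine Finset.sum_congr rfl fun m _ => ?_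
      rw [mul_pow]
      ring
    rw [Finset.sum_congr rfl fun s' _ => e3 s', Finset.sum_comm]
    refine Finset.sum_congr rfl fun m _ => ?_
    rw [Finset.sum_mul, Finset.sum_mul]
  rw [e2, Fin.sum_univ_castSucc, Fin.sum_univ_castSucc (f := fun s => β s i * w ^ (s : ℕ) * 2 ^ X)]
  have e4 : ∑ s' : Fin (n + 2), ((Nat.choose s' (Fin.last (n + 1)) : ℕ) : ℝ) *
      (al : ℝ) ^ ((Fin.last (n + 1) : Fin (n + 2)) : ℕ) *
      x ^ ((s' : ℕ) - ((Fin.last (n + 1) : Fin (n + 2)) : ℕ)) * β s' i =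
      (al : ℝ) ^ (n + 1) * β (Fin.last (n + 1)) i := by
    rw [Finset.sum_eq_single (Fin.last (n + 1))]
    · simp
    · intro s' _ h
      have h1 : (s' : ℕ) < n + 1 := by
        have h2 := s'.2
        have h3 : (s' : ℕ) ≠ n + 1 := fun h4 => h (Fin.ext h4)
        omega
      rw [Fin.val_last, Nat.choose_eq_zero_of_lt h1]
      simp
    · intro h
      exact absurd (Finset.mem_univ _) h
  rw [e4]
  have e5 : ∀ s : Fin (n + 1), shf al x β s i * w ^ (s : ℕ) * 2 ^ X =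
      (∑ s' : Fin (n + 2), ((Nat.choose s' s.castSucc : ℕ) : ℝ) *
        (al : ℝ) ^ ((s.castSucc : Fin (n + 2)) : ℕ) *
        x ^ ((s' : ℕ) - ((s.castSucc : Fin (n + 2)) : ℕ)) * β s' i) *
        w ^ ((s.castSucc : Fin (n + 2)) : ℕ) * 2 ^ X -
      (al : ℝ) ^ (n + 1) * (β s.castSucc i * w ^ ((s.castSucc : Fin (n + 2)) : ℕ) * 2 ^ X) := by
    intro s
    unfold shf
    simp only [Fin.val_castSucc]
    ring
  rw [Finset.sum_congr rfl fun s _ => e5 s, Finset.sum_sub_distrib, ← Finset.mul_sum]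
  simp only [Fin.val_last]
  ring

/-- The bound of the coefficients. -/
noncomputable def Ksh (n al : ℕ) : ℝ :=
  (n + 2) * (2 ^ (n + 1) * (al : ℝ) ^ (n + 1) * ((al : ℝ) + 2) ^ (n + 1)) +
    (1 + (al : ℝ) ^ (n + 1))

theorem Ksh_ge (n al : ℕ) : 1 + (al : ℝ) ^ (n + 1) ≤ Ksh n al := by
  unfold Ksh
  have : (0 : ℝ) ≤ (n + 2) * (2 ^ (n + 1) * (al : ℝ) ^ (n + 1) * ((al : ℝ) + 2) ^ (n + 1)) := by
    positivity
  linarith

theorem shf_le {al : ℕ} (hal : 1 ≤ al) {x C : ℝ} (hC : 0 ≤ C) (hx : |x| ≤ (al : ℝ) + 2)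
    {β : Fin (n + 2) → Fin c → ℝ} (hβ : ∀ s i, |β s i| ≤ C) (s : Fin (n + 1)) (i : Fin c) :
    |shf al x β s i| ≤ Ksh n al * C := by
  have hal' : (1 : ℝ) ≤ al := by exact_mod_cast hal
  have h2 : (1 : ℝ) ≤ (al : ℝ) + 2 := by linarith
  have h1 : ∀ s' : Fin (n + 2), |((Nat.choose s' s : ℕ) : ℝ) * (al : ℝ) ^ (s : ℕ) *
      x ^ ((s' : ℕ) - (s : ℕ)) * β s' i| ≤
      2 ^ (n + 1) * (al : ℝ) ^ (n + 1) * ((al : ℝ) + 2) ^ (n + 1) * C := by
    intro s'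
    have hs1 := s.2
    have hs2 := s'.2
    rw [abs_mul, abs_mul, abs_mul, abs_pow x]
    have a1 : |((Nat.choose s' s : ℕ) : ℝ)| ≤ 2 ^ (n + 1) := by
      rw [abs_of_nonneg (Nat.cast_nonneg _)]
      have b1 : Nat.choose s' s ≤ 2 ^ (n + 1) :=
        (Nat.choose_le_two_pow _ _).trans (Nat.pow_le_pow_right (by norm_num) (by omega))
      exact_mod_cast b1
    have a2 : |(al : ℝ) ^ (s : ℕ)| ≤ (al : ℝ) ^ (n + 1) := by
      rw [abs_of_nonneg (by positivity)]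
      exact pow_le_pow_right₀ hal' (by omega)
    have a3 : |x| ^ ((s' : ℕ) - (s : ℕ)) ≤ ((al : ℝ) + 2) ^ (n + 1) :=
      (pow_le_pow_left₀ (abs_nonneg _) hx _).trans (pow_le_pow_right₀ h2 (by omega))
    exact mul_le_mul (mul_le_mul (mul_le_mul a1 a2 (abs_nonneg _) (by positivity)) a3
      (by positivity) (by positivity)) (hβ s' i) (abs_nonneg _) (by positivity)
  unfold shf
  refine (abs_sub _ _).trans ?_
  have h3 : |∑ s' : Fin (n + 2), ((Nat.choose s' s : ℕ) : ℝ) * (al : ℝ) ^ (s : ℕ) *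
      x ^ ((s' : ℕ) - (s : ℕ)) * β s' i| ≤
      (n + 2) * (2 ^ (n + 1) * (al : ℝ) ^ (n + 1) * ((al : ℝ) + 2) ^ (n + 1) * C) := by
    refine (Finset.abs_sum_le_sum_abs _ _).trans ((Finset.sum_le_sum fun s' _ => h1 s').trans ?_)
    rw [Finset.sum_const, Finset.card_univ, Fintype.card_fin, nsmul_eq_mul]
    push_cast
    exact le_rfl
  have h4 : |(al : ℝ) ^ (n + 1) * β s.castSucc i| ≤ (al : ℝ) ^ (n + 1) * C := by
    rw [abs_mul, abs_of_nonneg (by positivity : (0 : ℝ) ≤ (al : ℝ) ^ (n + 1))]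
    exact mul_le_mul_of_nonneg_left (hβ _ _) (by positivity)
  unfold Ksh
  nlinarith

/-! ### Absorption -/

section absb

variable {Ω : Type} [Fintype Ω] {p : Ω → ℝ} {R : Ω → Fin c → ℤ} {A : Set (Fin c → ℤ)} {ε : ℝ}

/-- Absorption for any finite set of indices. -/
theorem absb_fin (h : Absb p R A ε) {Γ : Type} [Fintype Γ] {q : Γ → ℝ} (hq : IsLaw q) {ι : Type}
    [Fintype ι] (x : ι → Γ → Fin c → ℤ) (hx : ∀ i γ, 0 < q γ → x i γ ∈ A) (s : ι → ℤ) :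
    H (pr q p) (fun w => R w.2 + ∑ i, s i • x i w.1) ≤ H p R + (1 + ∑ i, |(s i : ℝ)|) * ε := by
  have e := Fintype.equivFin ι
  have h1 := h Γ inferInstance q hq (Fintype.card ι) (fun i => x (e.symm i))
    (fun i γ hγ => hx _ γ hγ) (fun i => s (e.symm i))
  have e1 : ∀ w : Γ × Ω, ∑ i, s (e.symm i) • x (e.symm i) w.1 = ∑ i, s i • x i w.1 := fun w =>
    Equiv.sum_comp e.symm (fun i => s i • x i w.1)
  have e2 : ∑ i, |(s (e.symm i) : ℝ)| = ∑ i, |(s i : ℝ)| :=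
    Equiv.sum_comp e.symm (fun i => |(s i : ℝ)|)
  rw [e2] at h1
  simp only [e1] at h1
  exact h1

/-- Absorption of differences. -/
theorem absb_two (hp : ∀ ω, 0 ≤ p ω) (h : Absb p R A ε) (hε : 0 ≤ ε) (N : ℕ) :
    Absb p R {x | ∃ a ∈ A, ∃ a' ∈ A, x = a - N • a'} ((1 + N) * ε) := by
  classical
  intro Γ _ q hq m x hx s
  have hx' : ∀ i γ, ∃ z : (Fin c → ℤ) × (Fin c → ℤ), 0 < q γ →
      z.1 ∈ A ∧ z.2 ∈ A ∧ x i γ = z.1 - N • z.2 := by
    intro i γ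
    by_cases hγ : 0 < q γ
    · obtain ⟨a, ha, a', ha', e⟩ := hx i γ hγ
      exact ⟨(a, a'), fun _ => ⟨ha, ha', e⟩⟩
    · exact ⟨(0, 0), fun h => absurd h hγ⟩
  choose z hz using hx'
  have h1 := absb_fin h hq (ι := Fin m ⊕ Fin m)
    (fun i γ => Sum.elim (fun i => (z i γ).1) (fun i => (z i γ).2) i) (by
      rintro (i | i) γ hγ
      · exact (hz i γ hγ).1
      · exact (hz i γ hγ).2.1) (Sum.elim s (fun i => -(N : ℤ) * s i))
  have e1 : H (pr q p) (fun w => R w.2 + ∑ i, s i • x i w.1) =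
      H (pr q p) (fun w => R w.2 + ∑ i, Sum.elim s (fun i => -(N : ℤ) * s i) i •
        Sum.elim (fun i => (z i w.1).1) (fun i => (z i w.1).2) i) := by
    refine Pool.CH30.H_supp (pr_nn hq.nonneg hp) fun w hw => ?_
    have hγ := (pr_pos hq.nonneg hp hw).1
    congr 1
    rw [Fintype.sum_sum_type]
    simp only [Sum.elim_inl, Sum.elim_inr]
    rw [← Finset.sum_add_distrib]
    refine Finset.sum_congr rfl fun i _ => ?_
    rw [(hz i w.1 hγ).2.2]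
    funext j
    simp only [Pi.add_apply, Pi.smul_apply, Pi.sub_apply, smul_eq_mul]
    simp only [nsmul_eq_mul]
    ring
  rw [e1]
  refine h1.trans ?_
  have e2 : ∑ i, |((Sum.elim s (fun i => -(N : ℤ) * s i) i : ℤ) : ℝ)| =
      (1 + N) * ∑ i, |(s i : ℝ)| := by
    rw [Fintype.sum_sum_type]
    simp only [Sum.elim_inl, Sum.elim_inr]
    rw [add_mul, one_mul, Finset.mul_sum]
    congr 1
    refine Finset.sum_congr rfl fun i _ => ?_
    push_cast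
    rw [neg_mul, abs_neg, abs_mul, abs_of_nonneg (Nat.cast_nonneg N)]
  rw [e2]
  have h2 : 0 ≤ ∑ i, |(s i : ℝ)| := Finset.sum_nonneg fun i _ => abs_nonneg _
  have h3 : (0 : ℝ) ≤ N := Nat.cast_nonneg N
  have h4 : (1 + (1 + (N : ℝ)) * ∑ i, |(s i : ℝ)|) * ε ≤
      (1 + ∑ i, |(s i : ℝ)|) * (1 + N) * ε := by
    refine mul_le_mul_of_nonneg_right ?_ hε
    nlinarith
  linarith

end absb

end Pool.BD64
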