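import Pool.Agent.H64.BD.Sel

/-!
# BODY of degree `n`: the pair step
-/

set_option autoImplicit false
set_option linter.unusedSectionVars false

namespace Pool.BD64

open Finset Real Matrix
open Pool.Agent.H49.Ent Pool.Agent.H32.Dense Pool.STK Pool.KS6 Pool.SLO Pool.RC21
open Pool.FAD Pool.CLO
open Pool.QC (mat xx QD inc Absb)

variable {c k n : ℕ}

open Classical in
/-- Sums over the tuples with entries in a set. -/
theorem sum_sub {J V' : Type} [Fintype J] [DecidableEq J] [Fintype V'] (V : Finset V')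
    (f : (J → V') → ℝ) : ∑ W' : J → {v // v ∈ V}, f (fun j => (W' j).1) =
      ∑ W, if ∀ j, W j ∈ V then f W else 0 := by
  rw [← Finset.sum_filter]
  refine Finset.sum_bij (fun W' _ => fun j => (W' j).1) ?_ ?_ ?_ ?_
  · intro W' _
    rw [Finset.mem_filter]
    exact ⟨Finset.mem_univ _, fun j => (W' j).2⟩
  · intro W1 _ W2 _ h
    funext j
    exact Subtype.ext (congrFun h j)
  · intro W hW
    rw [Finset.mem_filter] at hW
    exact ⟨fun j => ⟨W j, hW.2 j⟩, Finset.mem_univ _, rfl⟩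
  · intro W' _
    rfl

theorem sdiff_inst {α : Type} [Fintype α] (A : Finset α) (i1 i2 : DecidableEq α) (f : α → ℝ) :
    ∑ t ∈ @sdiff _ (@Finset.instSDiff α i1) Finset.univ A, f t =
      ∑ t ∈ @sdiff _ (@Finset.instSDiff α i2) Finset.univ A, f t := by
  rw [Subsingleton.elim i1 i2]

/-- The numbers of the pair step. -/
theorem stp_num {C ka' κ τ : ℝ} (hC : 1 ≤ C) (hka : 0 < ka') (hκ : 0 < κ) (hτ : 0 < τ) (al : ℕ) :
    ∃ (ka : ℝ) (X0 : ℕ), 0 < ka ∧ ∀ X : ℕ, X0 ≤ X → ∀ q : ℝ, q = (2 : ℝ) ^ (-(ka * X)) →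
      16 * C ^ 2 * (2 : ℝ) ^ ((1 - κ) * X) ≤ q ^ 3 * 2 ^ X ∧
      (2 : ℝ) ^ (-(ka' * X)) ≤ q ^ 3 / (4 * C ^ 2 * (al + 2)) * (q ^ 3 / 2) / 8 ∧
      (2 : ℝ) ^ (-(τ * X)) ≤ q ^ 3 / (4 * C ^ 2 * (al + 2)) / 2 := by
  obtain ⟨ρ, hρ⟩ : ∃ ρ : ℝ, ρ = min (ka' / 2) (min (κ / 2) (τ / 2)) := ⟨_, rfl⟩
  have hρ0 : 0 < ρ := by rw [hρ]; positivity
  obtain ⟨ka, hk⟩ : ∃ ka : ℝ, ka = ρ / 6 := ⟨_, rfl⟩
  have hk0 : 0 < ka := by rw [hk]; positivity
  obtain ⟨X0, hX0⟩ := ex_big hρ0 (64 * C ^ 2 * (al + 2))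
  refine ⟨ka, X0, hk0, fun X hX q hq => ?_⟩
  have hb := hX0 X hX
  have hXR : (0 : ℝ) ≤ X := Nat.cast_nonneg X
  have hal : (0 : ℝ) ≤ al := Nat.cast_nonneg al
  have h1 : ρ ≤ ka' / 2 := by rw [hρ]; exact min_le_left _ _
  have h2 : ρ ≤ κ / 2 := by rw [hρ]; exact (min_le_right _ _).trans (min_le_left _ _)
  have h3 : ρ ≤ τ / 2 := by rw [hρ]; exact (min_le_right _ _).trans (min_le_right _ _)
  have hq3 : q ^ 3 = (2 : ℝ) ^ (-(ρ / 2 * X)) := by
    rw [hq, ← Real.rpow_natCast, ← Real.rpow_mul (by norm_num), hk]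
    congr 1
    push_cast
    ring
  have hq6 : q ^ 3 * q ^ 3 = (2 : ℝ) ^ (-(ρ * X)) := by
    rw [hq3, ← Real.rpow_add (by norm_num)]
    congr 1
    ring
  have hC2 : 1 ≤ C ^ 2 := one_le_pow₀ hC
  have hone : ∀ a : ℝ, (2 : ℝ) ^ (-(a * X)) * (2 : ℝ) ^ (a * X) = 1 := by
    intro a
    rw [← Real.rpow_add (by norm_num), neg_add_cancel, Real.rpow_zero]
  have hmono : ∀ a b : ℝ, a ≤ b → (2 : ℝ) ^ (-(b * X)) ≤ (2 : ℝ) ^ (-(a * X)) := by
    intro a b hab
    refine Real.rpow_le_rpow_of_exponent_le (by norm_num) ?_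
    nlinarith
  have hpos : ∀ a : ℝ, (0 : ℝ) < (2 : ℝ) ^ a := fun a => by positivity
  -- the key inequality
  have key : ∀ a : ℝ, 2 * ρ ≤ a → (2 : ℝ) ^ (-(a * X)) * (64 * C ^ 2 * (al + 2)) ≤
      (2 : ℝ) ^ (-(ρ * X)) := by
    intro a ha
    have e1 := hmono _ _ ha
    have e2 : (2 : ℝ) ^ (-(2 * ρ * X)) = (2 : ℝ) ^ (-(ρ * X)) * (2 : ℝ) ^ (-(ρ * X)) := by
      rw [← Real.rpow_add (by norm_num)]
      congr 1
      ring
    have e3 := hpos (-(ρ * X))
    have e4 : (0 : ℝ) < 64 * C ^ 2 * (al + 2) := by positivity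
    calc (2 : ℝ) ^ (-(a * X)) * (64 * C ^ 2 * (al + 2)) ≤
        ((2 : ℝ) ^ (-(ρ * X)) * (2 : ℝ) ^ (-(ρ * X))) * (2 : ℝ) ^ (ρ * X) :=
          mul_le_mul (e1.trans e2.le) hb e4.le (by positivity)
      _ = (2 : ℝ) ^ (-(ρ * X)) * ((2 : ℝ) ^ (-(ρ * X)) * (2 : ℝ) ^ (ρ * X)) := by ring
      _ = (2 : ℝ) ^ (-(ρ * X)) := by rw [hone, mul_one]
  have hle : (2 : ℝ) ^ (-(ρ * X)) ≤ q ^ 3 := by
    rw [hq3]
    exact hmono _ _ (by linarith)
  refine ⟨?_, ?_, ?_⟩
  · have e1 : (2 : ℝ) ^ ((1 - κ) * X) = (2 : ℝ) ^ (-(κ * X)) * 2 ^ X := by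
      rw [← Real.rpow_natCast 2 X, ← Real.rpow_add (by norm_num)]
      congr 1
      ring
    rw [e1]
    have e2 := (key κ (by linarith)).trans hle
    have e3 : 16 * C ^ 2 * (2 : ℝ) ^ (-(κ * X)) ≤
        (2 : ℝ) ^ (-(κ * X)) * (64 * C ^ 2 * (al + 2)) := by
      have e4 := hpos (-(κ * X))
      have e5 : 0 < C ^ 2 := by positivity
      have e6 : 16 * C ^ 2 ≤ 64 * C ^ 2 * (al + 2) := by nlinarith [mul_nonneg e5.le hal]
      nlinarith
    have e7 : (0 : ℝ) < 2 ^ X := by positivity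
    calc 16 * C ^ 2 * ((2 : ℝ) ^ (-(κ * X)) * 2 ^ X) =
        (16 * C ^ 2 * (2 : ℝ) ^ (-(κ * X))) * 2 ^ X := by ring
      _ ≤ q ^ 3 * 2 ^ X := mul_le_mul_of_nonneg_right (e3.trans e2) e7.le
  · have e1 := key ka' (by linarith)
    rw [← hq6] at e1
    have e2 : q ^ 3 / (4 * C ^ 2 * (al + 2)) * (q ^ 3 / 2) / 8 =
        q ^ 3 * q ^ 3 / (64 * C ^ 2 * (al + 2)) := by
      field_simp
      ring
    rw [e2, le_div_iff₀ (by positivity)]
    exact e1
  · have e1 := (key τ (by linarith)).trans hle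
    rw [div_div, le_div_iff₀ (by positivity)]
    have e3 : (2 : ℝ) ^ (-(τ * X)) * (4 * C ^ 2 * (al + 2) * 2) ≤
        (2 : ℝ) ^ (-(τ * X)) * (64 * C ^ 2 * (al + 2)) := by
      refine mul_le_mul_of_nonneg_left ?_ (hpos _).le
      have e5 : 0 < C ^ 2 * (al + 2) := by positivity
      linarith
    exact e3.trans e1

open Classical in
/-- **The pair step.** -/
theorem pair_step (hV : VStmt c k n) {al : ℕ} (hal : 1 ≤ al) : ∀ C η τ κ : ℝ, 1 ≤ C → 0 < η →
    0 < τ → 0 < κ → κ ≤ 1 → ∃ (ka ε0 : ℝ) (X0 : ℕ), 0 < ka ∧ 0 < ε0 ∧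
  ∀ (D : QD c k) (bs : D.VV → Fin (n + 2) → Fin c → ℝ) (X : ℕ), X0 ≤ X →
    OkG D bs X C ((2 : ℝ) ^ (-(ka * X))) →
  ∀ (Ω : Type) (_ : Fintype Ω) (p : Ω → ℝ) (R : Ω → Fin c → ℤ), IsLaw p →
    Absb p R D.A (ε0 * X) →
  ∀ (J : Type) (_ : Fintype J) (_ : DecidableEq J) (j0 : J) (P : (J → D.VV) → ℝ),
    Wt D j0 P ((2 : ℝ) ^ (-(ka * X))) →
    ∃ (B : Matrix (Fin c) (Fin c) ℝ) (b : ℤ), Bd p R X (η * X) B ∧
      (2 : ℝ) ^ ((1 - κ) * X) ≤ |(b : ℝ)| ∧ |(b : ℝ)| ≤ ((al : ℝ) + 2) * 2 ^ X ∧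
      (2 : ℝ) ^ (-(τ * X)) * ∑ W, P W ≤
        ∑ W, if Kn D (fun v => shf al ((b : ℝ) / 2 ^ X) (bs v)) X B W then P W else 0 := by
  intro C η τ κ hC hη hτ hκ hκ1
  have hK := Ksh_ge n al
  have hal0 : (0 : ℝ) ≤ (al : ℝ) ^ (n + 1) := by positivity
  have hK1 : 1 ≤ Ksh n al := by linarith
  have hKC : 1 ≤ Ksh n al * C := one_le_mul_of_one_le_of_one_le hK1 hC
  obtain ⟨ka', ε0', X0', hka', hε0', H⟩ := hV (Ksh n al * C) η (τ / 2) hKC hη (by positivity)
  obtain ⟨ka, X1, hka, hnum⟩ := stp_num hC hka' hκ (τ := τ / 2) (by positivity) al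
  refine ⟨ka, ε0' / (1 + (al : ℝ) ^ (n + 1)), max X0' X1, hka, by positivity, ?_⟩
  intro D bs X hX hD Ω _ p R hp hA J _ _ j0 P hP
  obtain ⟨q, hq⟩ : ∃ q : ℝ, q = (2 : ℝ) ^ (-(ka * X)) := ⟨_, rfl⟩
  have hq0 : 0 < q := by rw [hq]; positivity
  rw [← hq] at hD hP
  obtain ⟨n1, n2, n3⟩ := hnum X ((le_max_right _ _).trans hX) q hq
  have hXR : (0 : ℝ) ≤ X := Nat.cast_nonneg X
  have hM0 : (1 : ℝ) ≤ (2 : ℝ) ^ ((1 - κ) * X) := by
    refine Real.one_le_rpow (by norm_num) ?_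
    have : 0 ≤ 1 - κ := by linarith
    positivity
  obtain ⟨b, hb1, hb2, hb3⟩ := sel hD hC hq0 hP (al := al) hM0 n1
  obtain ⟨θ, hθ⟩ : ∃ θ : ℝ, θ = q ^ 3 / (4 * C ^ 2 * (al + 2)) := ⟨_, rfl⟩
  have hθ0 : 0 < θ := by rw [hθ]; positivity
  rw [← hθ] at hb3 n2 n3
  obtain ⟨q2, hq2⟩ : ∃ q2 : ℝ, q2 = q ^ 3 / 2 := ⟨_, rfl⟩
  have hq20 : 0 < q2 := by rw [hq2]; positivity
  rw [← hq2] at hb3 n2
  have hm0 := mu2_nn hD al b q2
  -- the pruned graph
  obtain ⟨A, V, hA1, hV1, hrem⟩ := prune (adj := ad2 D) (mu := mu2 D X C al b q2) (vp := D.vp)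
    hm0 hD.vp_nn hD.vp_le (α := θ * q2 / 8) (β := q2 / 2) (q := q2) (by positivity) (by
      intro t ht
      rw [← cn2]
      by_contra hcon
      unfold mu2 at ht
      rw [if_neg fun h => hcon h.2] at ht
      exact lt_irrefl _ ht)
  have hrem' : ∑ t ∈ Finset.univ \ A, mu2 D X C al b q2 t ≤ θ / 4 := by
    have e1 : q2 - q2 / 2 = q2 / 2 := by ring
    rw [e1] at hrem
    have e2 : θ * q2 / 8 = q2 / 2 * (θ / 4) := by ring
    rw [e2] at hrem
    exact (le_of_eq (sdiff_inst A _ _ _)).trans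
      ((mul_le_mul_iff_right₀ (by positivity : (0 : ℝ) < q2 / 2)).1 hrem)
  have hFF1 : ∀ W : J → D.VV, FF (mu2 D X C al b q2) W ≤ 1 := by
    intro W
    have h1 : FF (mu2 D X C al b q2) W ≤ ∑ t, mu2 D X C al b q2 t := by
      unfold FF
      refine Finset.sum_le_sum fun t _ => ?_
      split_ifs
      · exact le_rfl
      · exact hm0 t
    refine h1.trans ((mu2_tot hD hC al b q2).trans ?_)
    rw [div_le_one (by linarith)]
    exact hC
  -- many tuples
  obtain ⟨G, hG⟩ : ∃ G : (J → D.VV) → ℝ, G = fun W =>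
      if θ / 2 ≤ FF (mu2 D X C al b q2) W then P W else 0 := ⟨_, rfl⟩
  have hG0 : ∀ W, 0 ≤ G W := fun W => by
    rw [hG]
    simp only
    split_ifs
    · exact hP.nn W
    · exact le_rfl
  have hGP : ∀ W, G W ≤ P W := fun W => by
    rw [hG]
    simp only
    split_ifs
    · exact le_rfl
    · exact hP.nn W
  have hGpos : ∀ W, 0 < G W → θ / 2 ≤ FF (mu2 D X C al b q2) W := by
    intro W hW
    rw [hG] at hW
    by_contra hcon
    simp only [if_neg hcon] at hW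
    exact lt_irrefl _ hW
  have hPle := Wt_le hP hD.vp_le
  have hGt : θ / 2 ≤ ∑ W, G W := by
    have h1 : ∀ W, P W * FF (mu2 D X C al b q2) W ≤ G W + P W * (θ / 2) := by
      intro W
      rw [hG]
      simp only
      have h2 := hP.nn W
      split_ifs with h3
      · have h4 := mul_le_of_le_one_right h2 (hFF1 W)
        have h5 : 0 ≤ P W * (θ / 2) := by positivity
        linarith
      · have h4 := mul_le_mul_of_nonneg_left (not_le.1 h3).le h2
        linarith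
    have h2 := hb3.trans (Finset.sum_le_sum fun W _ => h1 W)
    rw [Finset.sum_add_distrib, ← Finset.sum_mul] at h2
    nlinarith
  -- the common neighbours in the pruned graph
  have hcn : ∀ W : J → D.VV, θ / 2 ≤ FF (mu2 D X C al b q2) W →
      θ / 4 ≤ ∑ t ∈ A, if ∀ j, ad2 D t (W j) then mu2 D X C al b q2 t else 0 := by
    intro W hW
    have h1 := Finset.sum_sdiff (f := fun t => if ∀ j, ad2 D t (W j) then mu2 D X C al b q2 t
      else 0) (Finset.subset_univ A)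
    have h2 : ∑ t ∈ Finset.univ \ A, (if ∀ j, ad2 D t (W j) then mu2 D X C al b q2 t else 0) ≤
        ∑ t ∈ Finset.univ \ A, mu2 D X C al b q2 t := by
      refine Finset.sum_le_sum fun t _ => ?_
      split_ifs
      · exact le_rfl
      · exact hm0 t
    unfold FF at hW
    linarith
  have hmem : ∀ W : J → D.VV, θ / 2 ≤ FF (mu2 D X C al b q2) W → ∀ j, W j ∈ V := by
    intro W hW j
    rw [hV1]
    have h1 := hcn W hW
    have h2 : ∑ t ∈ A, (if ∀ j, ad2 D t (W j) then mu2 D X C al b q2 t else 0) ≤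
        dgV (ad2 D) (mu2 D X C al b q2) A (W j) := by
      unfold dgV
      refine Finset.sum_le_sum fun t _ => ?_
      by_cases h3 : ∀ j, ad2 D t (W j)
      · rw [if_pos h3, if_pos (h3 j)]
      · rw [if_neg h3]
        split_ifs
        · exact hm0 t
        · exact le_rfl
    have h3 : q2 ≤ 1 := by
      have h4 : q ≤ 1 := hP.tot.trans hPle
      rw [hq2]
      have : q ^ 3 ≤ 1 := pow_le_one₀ hq0.le h4
      linarith
    have h4 : θ * q2 / 8 ≤ θ / 4 := by nlinarith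
    linarith
  -- the graph of the pairs
  have hq' : (2 : ℝ) ^ (-(ka' * X)) ≤ θ * q2 / 8 := n2
  have hθ1 : θ ≤ 2 := by
    obtain ⟨W, hW⟩ : ∃ W, 0 < G W := by
      by_contra hcon
      push Not at hcon
      have : ∑ W, G W ≤ 0 := Finset.sum_nonpos fun W _ => hcon W
      linarith
    have h1 := (hGpos W hW).trans (hFF1 W)
    linarith
  have hok := par_ok hD hC hal hb2 (q2 := q2) (q' := (2 : ℝ) ^ (-(ka' * X))) (A := A) (V := V)
    (fun t ht => ⟨(hA1 t ht).1, (hq'.trans (by nlinarith)).trans (hA1 t ht).2⟩)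
    (fun v hv => hq'.trans ((hV1 v).1 hv))
  have habs : Absb p R (par D X C n al b q2 A V).A (ε0' * X) := by
    have h1 := absb_two hp.nonneg hA (by positivity) (al ^ (n + 1))
    have e1 : (1 + ((al ^ (n + 1) : ℕ) : ℝ)) * (ε0' / (1 + (al : ℝ) ^ (n + 1)) * X) = ε0' * X := by
      push_cast
      field_simp
    rw [e1] at h1
    exact h1
  obtain ⟨P', hP'⟩ : ∃ P' : (J → (par D X C n al b q2 A V).VV) → ℝ,
      P' = fun W' => G (fun j => (W' j).1) := ⟨_, rfl⟩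
  have hGV : ∀ W : J → D.VV, (if ∀ j, W j ∈ V then G W else 0) = G W := by
    intro W
    rcases (hG0 W).eq_or_lt with h0 | h0
    · rw [← h0, ite_self]
    · rw [if_pos (hmem W (hGpos W h0))]
  have hP't : ∑ W', P' W' = ∑ W, G W := by
    rw [hP']
    refine (sum_sub V G).trans ?_
    exact Finset.sum_congr rfl fun W _ => hGV W
  have hWt : Wt (par D X C n al b q2 A V) j0 P' ((2 : ℝ) ^ (-(ka' * X))) := by
    refine ⟨fun W' => ?_, fun v => ?_, ?_, fun W' hW' => ?_⟩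
    · rw [hP']
      exact hG0 _
    · have h1 : ∑ W' : J → {v // v ∈ V}, (if W' j0 = v then G (fun j => (W' j).1) else 0) =
          ∑ W' : J → {v // v ∈ V}, (fun W : J → D.VV => if W j0 = v.1 then G W else 0)
            (fun j => (W' j).1) := by
        refine Finset.sum_congr rfl fun W' _ => ?_
        by_cases h2 : W' j0 = v
        · have h3 : (W' j0).1 = v.1 := by rw [h2]
          simp only [if_pos h2, if_pos h3]
        · have h3 : ¬ (W' j0).1 = v.1 := fun h4 => h2 (Subtype.ext h4)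
          simp only [if_neg h2, if_neg h3]
      have h2 : ∑ W' : J → {v // v ∈ V}, (if W' j0 = v then G (fun j => (W' j).1) else 0) ≤
          D.vp v.1 := by
        refine (le_of_eq (h1.trans (sum_sub V
          (fun W : J → D.VV => if W j0 = v.1 then G W else 0)))).trans ?_
        refine le_trans (Finset.sum_le_sum fun W _ => ?_) (hP.mg v.1)
        by_cases h3 : W j0 = v.1
        · rw [if_pos h3]
          by_cases h4 : ∀ j, W j ∈ V
          · rw [if_pos h4, if_pos h3]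
            exact hGP W
          · rw [if_neg h4, if_pos h3]
            exact hP.nn W
        · rw [if_neg h3]
          simp only [if_neg h3, ite_self]
          exact le_rfl
      rw [hP']
      refine (le_of_eq (Finset.sum_congr rfl fun W' _ => ?_)).trans h2
      by_cases h5 : W' j0 = v
      · exact (if_pos h5).trans (if_pos h5).symm
      · exact (if_neg h5).trans (if_neg h5).symm
    · rw [hP't]
      refine le_trans ?_ hGt
      refine hq'.trans ?_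
      have h3 : q2 ≤ 1 := by
        have h4 : q ≤ 1 := hP.tot.trans hPle
        rw [hq2]
        have : q ^ 3 ≤ 1 := pow_le_one₀ hq0.le h4
        linarith
      nlinarith
    · rw [hP'] at hW'
      have h1 := hcn _ (hGpos _ hW')
      have h3 : q2 ≤ 1 := by
        have h4 : q ≤ 1 := hP.tot.trans hPle
        rw [hq2]
        have : q ^ 3 ≤ 1 := pow_le_one₀ hq0.le h4
        linarith
      have h4 : θ * q2 / 8 ≤ θ / 4 := by nlinarith
      refine (hq'.trans (h4.trans h1)).trans (le_of_eq ?_)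
      unfold QD.cnT
      rw [← Finset.sum_coe_sort A]
      refine Finset.sum_congr rfl fun t _ => ?_
      by_cases h5 : ∀ j, ad2 D t.1 (W' j).1
      · exact (if_pos h5).trans (if_pos h5).symm
      · exact (if_neg h5).trans (if_neg h5).symm
  obtain ⟨B, hB, hBK⟩ := H (par D X C n al b q2 A V) _ X ((le_max_left _ _).trans hX) hok Ω _ p R
    hp habs J _ _ j0 P' hWt
  refine ⟨B, b, hB, hb1, hb2, ?_⟩
  rw [hP't] at hBK
  have hfin : ∑ W', (if Kn (par D X C n al b q2 A V)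
      (fun v => shf al ((b : ℝ) / 2 ^ X) (bs v.1)) X B W' then P' W' else 0) ≤
      ∑ W, if Kn D (fun v => shf al ((b : ℝ) / 2 ^ X) (bs v)) X B W then P W else 0 := by
    have h1 : ∑ W' : J → {v // v ∈ V}, (if Kn (par D X C n al b q2 A V)
        (fun v => shf al ((b : ℝ) / 2 ^ X) (bs v.1)) X B W' then G (fun j => (W' j).1) else 0) =
        ∑ W' : J → {v // v ∈ V}, (fun W : J → D.VV =>
          if Kn D (fun v => shf al ((b : ℝ) / 2 ^ X) (bs v)) X B W then G W else 0)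
            (fun j => (W' j).1) := by
      refine Finset.sum_congr rfl fun W' _ => ?_
      have h2 : Kn (par D X C n al b q2 A V) (fun v => shf al ((b : ℝ) / 2 ^ X) (bs v.1)) X B W' ↔
          Kn D (fun v => shf al ((b : ℝ) / 2 ^ X) (bs v)) X B (fun j => (W' j).1) := Iff.rfl
      by_cases h3 : Kn D (fun v => shf al ((b : ℝ) / 2 ^ X) (bs v)) X B (fun j => (W' j).1)
      · simp only [if_pos h3, if_pos (h2.2 h3)]
      · simp only [if_neg h3, if_neg fun h4 => h3 (h2.1 h4)]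
    rw [hP']
    refine (le_of_eq (h1.trans (sum_sub V (fun W : J → D.VV =>
      if Kn D (fun v => shf al ((b : ℝ) / 2 ^ X) (bs v)) X B W then G W else 0)))).trans ?_
    refine Finset.sum_le_sum fun W _ => ?_
    by_cases h3 : ∀ j, W j ∈ V
    · rw [if_pos h3]
      by_cases h4 : Kn D (fun v => shf al ((b : ℝ) / 2 ^ X) (bs v)) X B W
      · rw [if_pos h4, if_pos h4]
        exact hGP W
      · rw [if_neg h4, if_neg h4]
    · rw [if_neg h3]
      split_ifs
      · exact hP.nn W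
      · exact le_rfl
  refine le_trans ?_ (hBK.trans hfin)
  have e1 : (2 : ℝ) ^ (-(τ * X)) = (2 : ℝ) ^ (-(τ / 2 * X)) * (2 : ℝ) ^ (-(τ / 2 * X)) := by
    rw [← Real.rpow_add (by norm_num)]
    congr 1
    ring
  have e2 : (0 : ℝ) < (2 : ℝ) ^ (-(τ / 2 * X)) := by positivity
  have e3 : 0 ≤ ∑ W, P W := Finset.sum_nonneg fun W _ => hP.nn W
  rw [e1, mul_assoc]
  refine mul_le_mul_of_nonneg_left ?_ e2.le
  calc (2 : ℝ) ^ (-(τ / 2 * X)) * ∑ W, P W ≤ (2 : ℝ) ^ (-(τ / 2 * X)) * 1 :=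
        mul_le_mul_of_nonneg_left hPle e2.le
    _ ≤ ∑ W, G W := by
        rw [mul_one]
        exact n3.trans hGt

end Pool.BD64
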