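import Pool.Agent.H64.BD.Dd

/-!
# BODY of degree `n`: bodies in which a variable is full

`Bd p R X η B`: `B` contains the small cell, and `R` is full in `B` up to `η`. Such bodies can be
scaled and added.
-/

set_option autoImplicit false

namespace Pool.BD64

open Finset Real Matrix
open Pool.Agent.H49.Ent Pool.Agent.H32.Dense Pool.STK Pool.KS6 Pool.SLO
open Pool.FAD Pool.CLO
open Pool.POT (Tx)
open Pool.QC (mat xx)

variable {c : ℕ} {Ω : Type} [Fintype Ω] {p : Ω → ℝ}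

/-- `x` lies in the body `B`. -/
def InB (B : Matrix (Fin c) (Fin c) ℝ) (x : Fin c → ℝ) : Prop := ∀ b, |(B⁻¹ *ᵥ x) b| ≤ 1

/-- `R` is full in `B`. -/
structure Bd (p : Ω → ℝ) (R : Ω → Fin c → ℤ) (X : ℕ) (η : ℝ) (B : Matrix (Fin c) (Fin c) ℝ) :
    Prop where
  det : B.det ≠ 0
  inv : ∀ i j, |B⁻¹ i j| ≤ 2 ^ X
  ph : Ph p (xx R X) B ≤ Ph p (xx R X) (Tx c X) + η

theorem Bd.mono {R : Ω → Fin c → ℤ} {X : ℕ} {η η' : ℝ} {B : Matrix (Fin c) (Fin c) ℝ}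
    (h : Bd p R X η B) (hη : η ≤ η') : Bd p R X η' B :=
  ⟨h.det, h.inv, h.ph.trans (by linarith)⟩

theorem Tx_inc {X : ℕ} {B : Matrix (Fin c) (Fin c) ℝ} (h : ∀ i j, |B⁻¹ i j| ≤ 2 ^ X) :
    Inc c (Tx c X) B := by
  intro i
  have e : ∀ j, (B⁻¹ * Tx c X) i j = B⁻¹ i j * ((2 : ℝ) ^ X)⁻¹ := by
    intro j
    unfold Tx
    rw [Matrix.mul_diagonal]
  calc ∑ j, |(B⁻¹ * Tx c X) i j| ≤ ∑ _j : Fin c, (1 : ℝ) := by
        refine Finset.sum_le_sum fun j _ => ?_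
        rw [e, abs_mul, abs_of_pos (by positivity : (0 : ℝ) < ((2 : ℝ) ^ X)⁻¹), ← div_eq_mul_inv,
          div_le_one (by positivity)]
        exact h i j
    _ = c := by simp

/-- The small cell. -/
theorem bd_Tx (R : Ω → Fin c → ℤ) (X : ℕ) : Bd p R X 0 (Tx c X) := by
  refine ⟨Pool.POT.Tx_det c X, fun i j => ?_, by rw [add_zero]⟩
  have e : (Tx c X)⁻¹ = Matrix.diagonal fun _ => (2 : ℝ) ^ X := by
    unfold Tx
    rw [inv_diag fun _ => by positivity]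
    simp
  rw [e, Matrix.diagonal_apply]
  split_ifs
  · rw [abs_of_pos (by positivity)]
  · rw [abs_zero]
    positivity

/-- Matrices with bounded row sums. -/
theorem row_le {M : Matrix (Fin c) (Fin c) ℝ} {x : Fin c → ℝ} {a b : ℝ} (hb : 0 ≤ b)
    (hM : ∀ i, ∑ j, |M i j| ≤ a) (hx : ∀ j, |x j| ≤ b) (i : Fin c) : |(M *ᵥ x) i| ≤ a * b := by
  unfold Matrix.mulVec dotProduct
  refine (Finset.abs_sum_le_sum_abs _ _).trans ?_
  calc ∑ j, |M i j * x j| ≤ ∑ j, |M i j| * b := by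
        refine Finset.sum_le_sum fun j _ => ?_
        rw [abs_mul]
        exact mul_le_mul_of_nonneg_left (hx j) (abs_nonneg _)
    _ = (∑ j, |M i j|) * b := (Finset.sum_mul _ _ _).symm
    _ ≤ a * b := mul_le_mul_of_nonneg_right (hM i) hb

theorem inc_vec {A S : Matrix (Fin c) (Fin c) ℝ} (hA : A.det ≠ 0) {a b : ℝ} (hb : 0 ≤ b)
    (h : Inc a A S) {x : Fin c → ℝ} (hx : ∀ j, |(A⁻¹ *ᵥ x) j| ≤ b) (i : Fin c) :
    |(S⁻¹ *ᵥ x) i| ≤ a * b := by
  have e : S⁻¹ *ᵥ x = (S⁻¹ * A) *ᵥ (A⁻¹ *ᵥ x) := by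
    rw [Matrix.mulVec_mulVec, Matrix.mul_assoc, Matrix.mul_nonsing_inv _ (isUnit_iff_ne_zero.2 hA),
      Matrix.mul_one]
  rw [e]
  exact row_le hb h hx i

theorem inc_inv {A S : Matrix (Fin c) (Fin c) ℝ} (hA : A.det ≠ 0) {a b : ℝ} (hb : 0 ≤ b)
    (h : Inc a A S) (hx : ∀ i j, |A⁻¹ i j| ≤ b) (i j : Fin c) : |S⁻¹ i j| ≤ a * b := by
  have e1 : ∀ M : Matrix (Fin c) (Fin c) ℝ, M⁻¹ *ᵥ (Pi.single j 1) = fun i => M⁻¹ i j := by
    intro M
    funext i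
    rw [Matrix.mulVec_single]
    simp
  have h1 := inc_vec hA hb h (x := Pi.single j 1) (fun l => by
    rw [e1]
    exact hx l j) i
  rwa [e1] at h1

/-! ### Scaling -/

theorem smul_inv {B : Matrix (Fin c) (Fin c) ℝ} (hB : B.det ≠ 0) {l : ℝ} (hl : 0 < l) :
    (l • B)⁻¹ = l⁻¹ • B⁻¹ := by
  refine Matrix.inv_eq_left_inv ?_
  rw [Matrix.smul_mul, Matrix.mul_smul, smul_smul, inv_mul_cancel₀ hl.ne', one_smul,
    Matrix.nonsing_inv_mul _ (isUnit_iff_ne_zero.2 hB)]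

theorem lv_smul {B : Matrix (Fin c) (Fin c) ℝ} (hB : B.det ≠ 0) {l : ℝ} (hl : 0 < l) :
    lv (l • B) = lv B + c * Real.log l := by
  unfold lv
  rw [Matrix.det_smul, Fintype.card_fin, abs_mul,
    Real.log_mul (abs_ne_zero.2 (by positivity)) (abs_ne_zero.2 hB), abs_of_pos (by positivity),
    Real.log_pow]
  ring

theorem inc_smul {B : Matrix (Fin c) (Fin c) ℝ} (hB : B.det ≠ 0) {l : ℝ} (hl : 1 ≤ l) :
    Inc 1 B (l • B) := by
  intro i
  have hl0 : 0 < l := by linarith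
  rw [smul_inv hB hl0, Matrix.smul_mul, Matrix.nonsing_inv_mul _ (isUnit_iff_ne_zero.2 hB)]
  rw [Finset.sum_eq_single i]
  · rw [Matrix.smul_apply, Matrix.one_apply_eq, smul_eq_mul, mul_one, abs_of_pos (inv_pos.2 hl0)]
    exact inv_le_one_of_one_le₀ hl
  · intro j _ hj
    rw [Matrix.smul_apply, Matrix.one_apply_ne hj.symm, smul_zero, abs_zero]
  · intro h
    exact absurd (Finset.mem_univ i) h

theorem inb_smul {B : Matrix (Fin c) (Fin c) ℝ} (hB : B.det ≠ 0) {l : ℝ} (hl : 0 < l)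
    {x : Fin c → ℝ} (h : ∀ b, |(B⁻¹ *ᵥ x) b| ≤ l) : InB (l • B) x := by
  intro b
  rw [smul_inv hB hl, Matrix.smul_mulVec, Pi.smul_apply, smul_eq_mul, abs_mul,
    abs_of_pos (inv_pos.2 hl), inv_mul_le_iff₀ hl, mul_one]
  exact h b

/-- Scaling. -/
theorem Bd.scale (hp : IsLaw p) {R : Ω → Fin c → ℤ} {X : ℕ} {η l : ℝ}
    {B : Matrix (Fin c) (Fin c) ℝ} (h : Bd p R X η B) (hl : 1 ≤ l) :
    Bd p R X (η + (c * Real.log l + c * Real.log 5)) (l • B) := by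
  have hl0 : 0 < l := by linarith
  refine ⟨?_, fun i j => ?_, ?_⟩
  · rw [Matrix.det_smul]
    exact mul_ne_zero (by positivity) h.det
  · rw [smul_inv h.det hl0, Matrix.smul_apply, smul_eq_mul, abs_mul, abs_of_pos (inv_pos.2 hl0)]
    calc l⁻¹ * |B⁻¹ i j| ≤ 1 * 2 ^ X :=
          mul_le_mul (inv_le_one_of_one_le₀ hl) (h.inv i j) (abs_nonneg _) zero_le_one
      _ = _ := one_mul _
  · have h1 := Ph_up hp (xx R X) h.det (inc_smul h.det hl)
    rw [lv_smul h.det hl0, show (2 : ℝ) * (1 + 1) + 1 = 5 by norm_num] at h1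
    have h2 := h.ph
    linarith

/-! ### Sums -/

/-- The constant for two bodies. -/
noncomputable def Kp (c : ℕ) : ℝ :=
  Cp c c + c * Real.log (2 * (c * c + 1) + 1) + (c * Real.log (c + 1) + c * Real.log 5)

/-- **A body which contains two bodies.** -/
theorem Bd.pair (hp : IsLaw p) {R : Ω → Fin c → ℤ} {X : ℕ} {η η' : ℝ}
    {A B : Matrix (Fin c) (Fin c) ℝ} (hA : Bd p R X η A) (hB : Bd p R X η' B) :
    ∃ S, Bd p R X (η + η' + Kp c) S ∧ (∀ x, InB A x → InB S x) ∧ ∀ x, InB B x → InB S x := by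
  have hc0 : (0 : ℝ) ≤ c := Nat.cast_nonneg c
  obtain ⟨S0, hS, h1, h2, h3⟩ := Ph_pair hp (xx R X) (Pool.POT.Tx_det c X) hA.det hB.det hc0
    (Tx_inc hA.inv) (Tx_inc hB.inv)
  have hX : (0 : ℝ) < 2 ^ X := by positivity
  have hinv := inc_inv hA.det hX.le h1 hA.inv
  have hl : (1 : ℝ) ≤ (c : ℝ) + 1 := by linarith
  have hl0 : (0 : ℝ) < (c : ℝ) + 1 := by linarith
  refine ⟨((c : ℝ) + 1) • S0, ⟨?_, fun i j => ?_, ?_⟩, fun x hx => ?_, fun x hx => ?_⟩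
  · rw [Matrix.det_smul]
    exact mul_ne_zero (by positivity) hS
  · rw [smul_inv hS hl0, Matrix.smul_apply, smul_eq_mul, abs_mul, abs_of_pos (inv_pos.2 hl0),
      inv_mul_le_iff₀ hl0]
    refine (hinv i j).trans ?_
    nlinarith
  · have h4 := Ph_up hp (xx R X) hS (inc_smul hS hl)
    rw [lv_smul hS hl0, show (2 : ℝ) * (1 + 1) + 1 = 5 by norm_num] at h4
    have h5 := hA.ph
    have h6 := hB.ph
    unfold Kp
    linarith
  · refine inb_smul hS hl0 fun b => ?_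
    have := inc_vec hA.det zero_le_one h1 hx b
    linarith
  · refine inb_smul hS hl0 fun b => ?_
    have := inc_vec hB.det zero_le_one h2 hx b
    linarith

/-- A body whose columns lie in a body. -/
theorem Bd.sub (hp : IsLaw p) {R : Ω → Fin c → ℤ} {X : ℕ} {η : ℝ}
    {S : Matrix (Fin c) (Fin c) ℝ} (hS : Bd p R X η S) (δ : Fin c → Fin c → ℝ)
    (hd : (mat δ).det ≠ 0) (h : ∀ b, InB S (δ b)) :
    Ph p (xx R X) (mat δ) ≤ Ph p (xx R X) (Tx c X) + (η + Cc c c) := by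
  have hinc : Inc c (mat δ) S := by
    intro i
    calc ∑ j, |(S⁻¹ * mat δ) i j| ≤ ∑ _j : Fin c, (1 : ℝ) := by
          refine Finset.sum_le_sum fun j _ => ?_
          exact h j i
      _ = c := by simp
  have h1 := Ph_mono hp (xx R X) hd hS.det (Nat.cast_nonneg c) hinc
  have h2 := hS.ph
  linarith

end Pool.BD64
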